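import Mathlib
import Pool.Agent.MP_97be6c_lc.HahnLem
import Pool.Agent.MP_97be6c_lc.Good
import Pool.Agent.MP_97be6c_lc.Mor

-- part MP_97be6c_lc.Ops
section

set_option autoImplicit false
set_option linter.unusedSectionVars false

open HahnSeries Polynomial

noncomputable section

namespace Pool.Agent.MP_97be6c_lc

section Pext

variable {k : Type} [CommRing k]

/-- The extension of `d : k → k[X]` to `k[X]` that sends `X` to `g`. -/
def pext (d : k →+ k[X]) (g : k[X]) : k[X] →+ k[X] where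
  toFun p := (p.sum fun i a => d a * X ^ i) + derivative p * g
  map_zero' := by simp
  map_add' p q := by
    rw [sum_add_index _ _ _ (by simp) (by simp [add_mul]), map_add]
    ring

theorem pext_monomial (d : k →+ k[X]) (g : k[X]) (i : ℕ) (a : k) :
    pext d g (monomial i a) = d a * X ^ i + monomial (i - 1) (a * i) * g := by
  change ((monomial i a).sum fun i a => d a * X ^ i) + derivative (monomial i a) * g = _
  rw [sum_monomial_index _ _ (by simp), derivative_monomial]

theorem pext_C (d : k →+ k[X]) (g : k[X]) (a : k) : pext d g (Polynomial.C a) = d a := by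
  rw [← monomial_zero_left, pext_monomial]; simp

/-- `d` is a derivation with values in `k[X]`. -/
def IsDerC (d : k →+ k[X]) : Prop :=
  ∀ a b, d (a * b) = Polynomial.C a * d b + Polynomial.C b * d a

theorem IsDerC.one {d : k →+ k[X]} (h : IsDerC d) : d 1 = 0 := by
  have := h 1 1
  simpa using this

theorem pext_X {d : k →+ k[X]} (h : IsDerC d) (g : k[X]) : pext d g X = g := by
  rw [← monomial_one_one_eq_X, pext_monomial, h.one]; simp

theorem IsDerC.pext {d : k →+ k[X]} (h : IsDerC d) (g : k[X]) : IsDer (pext d g) := by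
  let s : k[X] →+ k[X] := Pool.Agent.MP_97be6c_lc.pext d 0
  have hs : ∀ p, Pool.Agent.MP_97be6c_lc.pext d g p = s p + derivative p * g := fun p => by
    change _ = (_ + derivative p * 0) + _
    rw [mul_zero, add_zero]; rfl
  have key : ∀ p q, s (p * q) = p * s q + s p * q := by
    intro p q
    induction p using Polynomial.induction_on' with
    | add p p' h1 h2 => rw [add_mul, map_add, map_add, h1, h2]; ring
    | monomial i a =>
      induction q using Polynomial.induction_on' with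
      | add q q' h1 h2 => rw [mul_add, map_add, map_add, h1, h2]; ring
      | monomial j b =>
        simp only [s, monomial_mul_monomial, pext_monomial, mul_zero, add_zero, h a b]
        simp only [← C_mul_X_pow_eq_monomial]
        ring
  intro p q
  rw [hs, hs, hs, key, derivative_mul]
  ring

/-- A derivation of `k`, with values in the constant polynomials. -/
def cθ (θ : k →+ k) : k →+ k[X] := (Polynomial.C : k →+* k[X]).toAddMonoidHom.comp θ

theorem cθ_apply (θ : k →+ k) (a : k) : cθ θ a = Polynomial.C (θ a) := rfl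

theorem IsDer.cθ {θ : k →+ k} (h : IsDer θ) : IsDerC (cθ θ) := fun a b => by
  simp only [cθ_apply, h a b, map_add, map_mul]; ring

theorem pext_cθ_coeff (θ : k →+ k) (g p : k[X]) (i : ℕ) :
    (pext (cθ θ) g p).coeff i = θ (p.coeff i) + (derivative p * g).coeff i := by
  change ((p.sum fun i a => cθ θ a * X ^ i) + derivative p * g).coeff i = _
  rw [Polynomial.coeff_add, Polynomial.coeff_sum]
  congr 1
  simp only [cθ_apply, Polynomial.coeff_C_mul, coeff_X_pow, mul_ite, mul_one, mul_zero, sum_def]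
  rw [Finset.sum_ite_eq]
  split_ifs with h
  · rfl
  · rw [notMem_support_iff.1 h, map_zero]

/-- Chain rule for evaluation. -/
theorem pext_eval₂ {K : Type} [CommRing K] {d : k →+ k[X]} {g : k[X]} {D : K →+ K} (hD : IsDer D)
    (φ : k →+* K) (t c : K) (h1 : ∀ a, D (φ a) = c * eval₂ φ t (d a))
    (h2 : D t = c * eval₂ φ t g) (p : k[X]) :
    D (eval₂ φ t p) = c * eval₂ φ t (pext d g p) := by
  induction p using Polynomial.induction_on' with
  | add p q hp hq => rw [eval₂_add, map_add, hp, hq, map_add, eval₂_add]; ring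
  | monomial i a =>
    rw [pext_monomial, eval₂_monomial, hD, h1, eval₂_add, eval₂_mul, eval₂_mul, eval₂_monomial,
      eval₂_X_pow, map_mul, map_natCast]
    cases i with
    | zero => simp [hD.one]
    | succ i => rw [hD.pow_succ, h2]; simp; ring

/-- Two derivations of `k[X]` into a ring along the same ring map agree if they agree on
constants and on `X`. -/
theorem der_ext {K : Type} [CommRing K] (φ : k[X] →+* K) (D D' : k[X] →+ K)
    (hD : ∀ p q, D (p * q) = φ p * D q + φ q * D p)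
    (hD' : ∀ p q, D' (p * q) = φ p * D' q + φ q * D' p)
    (h1 : ∀ a, D (Polynomial.C a) = D' (Polynomial.C a)) (h2 : D X = D' X) (p : k[X]) :
    D p = D' p := by
  induction p using Polynomial.induction_on with
  | C a => exact h1 a
  | add p q hp hq => rw [map_add, map_add, hp, hq]
  | monomial i a ih => rw [pow_succ, ← mul_assoc, hD, hD', ih, h2]

end Pext

section Act

variable {k : Type} [CommRing k] {M : Type} [AddCommGroup M] [Module k M]

/-- The differential operator `∑ a_i D^i` applied to `m`. -/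
def act (D : M →+ M) (m : M) : k[X] →ₗ[k] M :=
  Polynomial.lsum fun i => LinearMap.toSpanSingleton k M (D^[i] m)

theorem act_apply (D : M →+ M) (m : M) (L : k[X]) :
    act D m L = L.sum fun i a => a • D^[i] m := rfl

theorem act_monomial (D : M →+ M) (m : M) (i : ℕ) (a : k) :
    act D m (monomial i a) = a • D^[i] m := by
  rw [act_apply, sum_monomial_index _ _ (by simp)]

theorem act_one (D : M →+ M) (m : M) : act D m (1 : k[X]) = m := by
  rw [← monomial_zero_one, act_monomial]; simp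

/-- `D` is a connection over `θ`. -/
def Conn (θ : k →+ k) (D : M →+ M) : Prop := ∀ (a : k) (m : M), D (a • m) = θ a • m + a • D m

/-- Left multiplication by the derivation in the ring of differential operators. -/
def stp (θ : k →+ k) (L : k[X]) : k[X] := pext (cθ θ) 0 L + X * L

theorem stp_add (θ : k →+ k) (L L' : k[X]) : stp θ (L + L') = stp θ L + stp θ L' := by
  rw [stp, stp, stp, map_add]; ring

theorem act_stp {θ : k →+ k} {D : M →+ M} (h : Conn θ D) (m : M) (L : k[X]) :
    act D m (stp θ L) = D (act D m L) := by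
  induction L using Polynomial.induction_on' with
  | add p q hp hq => rw [stp_add, map_add, map_add, map_add, hp, hq]
  | monomial i a =>
    rw [stp, pext_monomial, mul_zero, add_zero, cθ_apply, C_mul_X_pow_eq_monomial,
      X_mul_monomial, map_add, act_monomial, act_monomial, act_monomial, h,
      Function.iterate_succ_apply']

theorem stp_coeff_succ (θ : k →+ k) (L : k[X]) (i : ℕ) :
    (stp θ L).coeff (i + 1) = θ (L.coeff (i + 1)) + L.coeff i := by
  rw [stp, Polynomial.coeff_add, pext_cθ_coeff, coeff_X_mul]; simp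

/-- `L` has degree at most `d` and coefficient `c` in degree `d`. -/
def Top (L : k[X]) (d : ℕ) (c : k) : Prop := L.coeff d = c ∧ ∀ i, d < i → L.coeff i = 0

theorem Top.self (L : k[X]) : Top L L.natDegree L.leadingCoeff :=
  ⟨rfl, fun _ h => coeff_eq_zero_of_natDegree_lt h⟩

theorem Top.stp {θ : k →+ k} {L : k[X]} {d : ℕ} {c : k} (h : Top L d c) :
    Top (stp θ L) (d + 1) c := by
  refine ⟨by rw [stp_coeff_succ, h.2 _ (by omega), map_zero, zero_add, h.1], fun i hi => ?_⟩
  obtain ⟨j, rfl⟩ : ∃ j, i = j + 1 := ⟨i - 1, by omega⟩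
  rw [stp_coeff_succ, h.2 _ (by omega), h.2 _ (by omega), map_zero, zero_add]

theorem Top.iter {θ : k →+ k} {L : k[X]} {d : ℕ} {c : k} (h : Top L d c) (n : ℕ) :
    Top ((Pool.Agent.MP_97be6c_lc.stp θ)^[n] L) (d + n) c := by
  induction n with
  | zero => exact h
  | succ n ih => rw [Function.iterate_succ_apply']; exact ih.stp

theorem act_iter {θ : k →+ k} {D : M →+ M} (h : Conn θ D) (m : M) (L : k[X]) (n : ℕ) :
    act D m ((stp θ)^[n] L) = D^[n] (act D m L) := by
  induction n with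
  | zero => rfl
  | succ n ih => rw [Function.iterate_succ_apply', Function.iterate_succ_apply', act_stp h, ih]

theorem Top.act {D : M →+ M} {L : k[X]} {d : ℕ} {c : k} (h : Top L d c) (m : M) :
    act D m L = c • D^[d] m + ∑ i ∈ Finset.range d, L.coeff i • D^[i] m := by
  rw [act_apply, sum_over_range' _ (by simp) (d + 1), Finset.sum_range_succ, h.1, add_comm]
  exact Nat.lt_succ_of_le (natDegree_le_iff_coeff_eq_zero.2 h.2)

variable (k) in
/-- Every nonzero differential operator is surjective. -/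
def Dv (D : M →+ M) : Prop := ∀ L : k[X], L ≠ 0 → ∀ m, ∃ m', act D m' L = m

theorem Dv.twist [IsDomain k] {θ : k →+ k} {D N : M →+ M} (h : Dv k D) (hc : Conn θ D) {c l : k}
    (h0 : c ≠ 0) (hN : ∀ m, N m = c • D m + l • m) : Dv k N := by
  let P : ℕ → k[X] := fun n => Nat.rec 1 (fun _ p => c • stp θ p + l • p) n
  have hP : ∀ n m, act D m (P n) = N^[n] m := by
    intro n m
    induction n with
    | zero => exact act_one D m
    | succ n ih =>
      rw [Function.iterate_succ_apply', hN, ← ih, ← act_stp hc, ← map_smul, ← map_smul, ← map_add]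
  have hT : ∀ n, Top (P n) n (c ^ n) := by
    intro n
    induction n with
    | zero => exact ⟨by simp [P], fun i hi => by
        change (1 : k[X]).coeff i = 0
        rw [Polynomial.coeff_one, if_neg hi.ne']⟩
    | succ n ih =>
      have h1 := ih.stp (θ := θ)
      refine ⟨?_, fun i hi => ?_⟩
      · change (c • stp θ (P n) + l • P n).coeff _ = _
        rw [Polynomial.coeff_add, Polynomial.coeff_smul, Polynomial.coeff_smul, h1.1,
          ih.2 _ (by omega)]
        simp [pow_succ']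
      · change (c • stp θ (P n) + l • P n).coeff _ = _
        rw [Polynomial.coeff_add, Polynomial.coeff_smul, Polynomial.coeff_smul, h1.2 _ hi,
          ih.2 _ (by omega)]
        simp
  intro L hL m
  obtain ⟨m', hm'⟩ := h (L.sum fun i a => a • P i) (fun h0' => by
    have := congrArg (fun p : k[X] => p.coeff L.natDegree) h0'
    simp only [Polynomial.coeff_sum, Polynomial.coeff_smul, Polynomial.coeff_zero] at this
    rw [sum_over_range _ (by simp), Finset.sum_range_succ, Finset.sum_eq_zero, zero_add,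
      (hT _).1] at this
    · exact mul_ne_zero (leadingCoeff_ne_zero.2 hL) (pow_ne_zero _ h0) this
    · intro i hi
      rw [(hT i).2 _ (Finset.mem_range.1 hi), smul_zero]) m
  refine ⟨m', ?_⟩
  rw [← hm', act_apply, sum_def, sum_def, map_sum]
  exact Finset.sum_congr rfl fun i _ => by rw [map_smul, hP]

end Act

section Solve

open scoped Pointwise

variable {Λ : Type} [AddCommGroup Λ] [LinearOrder Λ] [IsOrderedAddMonoid Λ]
  {R : Type} [AddCommGroup R]

/-- Solving a triangular equation in Hahn series by transfinite recursion. -/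
theorem solve (T : R⟦Λ⟧ →+ R⟦Λ⟧) {S : Set Λ} (hS : S.IsPWO) (hpos : ∀ a ∈ S, 0 ≤ a)
    (hsupp : ∀ g γ, (T g).coeff γ ≠ 0 → ∃ a ∈ S, ∃ β ∈ g.support, γ = a + β)
    (hdiag : ∀ γ c, ∃ d, (T (single γ d)).coeff γ = c) : Function.Surjective T := by
  classical
  intro f
  choose sec hsec using hdiag
  let Γ : Set Λ := (AddSubmonoid.closure S : Set Λ) + f.support
  have hΓ : Γ.IsPWO := (hS.addSubmonoid_closure hpos).add f.isPWO_support
  let mk : (Γ → R) → R⟦Λ⟧ := fun h =>
    ⟨fun β => if hβ : β ∈ Γ then h ⟨β, hβ⟩ else 0, hΓ.mono fun β hβ => by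
      by_contra hn
      exact hβ (dif_neg hn)⟩
  have hwf : WellFounded fun a b : Γ => a < b := hΓ.isWF
  let F : ∀ γ : Γ, (∀ β : Γ, β < γ → R) → R := fun γ ih =>
    sec γ (f.coeff γ - (T (mk fun β => if h : β < γ then ih β h else 0)).coeff γ)
  let h : Γ → R := hwf.fix F
  have hfix : ∀ γ : Γ, h γ = sec γ (f.coeff γ - (T (truncLT γ.1 (mk h))).coeff γ) := by
    intro γ
    have : h γ = F γ fun β _ => h β := hwf.fix_eq F γ
    rw [this]
    have e : (mk fun β => if h' : β < γ then h β else 0) = truncLT γ.1 (mk h) := ?_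
    · simp only [F, e]
    ext β
    rw [HahnSeries.coeff_truncLT]
    by_cases hβ : β ∈ Γ
    · simp only [mk, dif_pos hβ]
      by_cases hlt : β < γ.1
      · rw [if_pos hlt, dif_pos (show (⟨β, hβ⟩ : Γ) < γ from hlt)]
      · rw [if_neg hlt, dif_neg (show ¬(⟨β, hβ⟩ : Γ) < γ from hlt)]
    · simp only [mk, dif_neg hβ, ite_self]
  refine ⟨mk h, ?_⟩
  ext γ
  by_cases hγ : γ ∈ Γ
  · have e : mk h = truncLT γ (mk h) + single γ (h ⟨γ, hγ⟩) +
        (mk h - truncLT γ (mk h) - single γ (h ⟨γ, hγ⟩)) := by abel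
    have h0 : (T (mk h - truncLT γ (mk h) - single γ (h ⟨γ, hγ⟩))).coeff γ = 0 := by
      by_contra hne
      obtain ⟨a, ha, β, hβ, hab⟩ := hsupp _ _ hne
      have hle : β ≤ γ := by rw [hab]; exact le_add_of_nonneg_left (hpos a ha)
      apply hβ
      rw [HahnSeries.coeff_sub, HahnSeries.coeff_sub]
      rcases hle.lt_or_eq with hlt | rfl
      · rw [coeff_truncLT_of_lt hlt, coeff_single_of_ne hlt.ne]; simp
      · rw [coeff_truncLT_of_le le_rfl, coeff_single_same]
        simp only [mk, dif_pos hγ]; simp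
    rw [e, map_add, map_add, HahnSeries.coeff_add, HahnSeries.coeff_add, h0, hfix, hsec]
    simp
  · have h1 : f.coeff γ = 0 := by
      by_contra hne
      exact hγ ⟨0, AddSubmonoid.zero_mem _, γ, hne, zero_add γ⟩
    rw [h1]
    by_contra hne
    obtain ⟨a, ha, β, hβ, rfl⟩ := hsupp _ _ hne
    have hβΓ : β ∈ Γ := by
      by_contra hn
      exact hβ (dif_neg hn)
    obtain ⟨s, hs, t, ht, rfl⟩ := hβΓ
    exact hγ ⟨a + s, AddSubmonoid.add_mem _ (AddSubmonoid.subset_closure ha) hs, t, ht,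
      add_assoc _ _ _⟩

end Solve

end Pool.Agent.MP_97be6c_lc

end
end

-- part MP_97be6c_lc.Wron
section

set_option autoImplicit false
set_option linter.unusedSectionVars false

open Polynomial

noncomputable section

namespace Pool.Agent.MP_97be6c_lc

/-- The constants of the fraction field come from `ρ`. -/
def Cst {R : Type} [CommRing R] (D : R →+ R) (ρ : ℝ → R) : Prop :=
  ∀ p q, q ≠ 0 → D p * q = p * D q → ∃ c, p = ρ c * q

section Wronski

variable {R : Type} [CommRing R] [IsDomain R] {D : R →+ R} {ρ : ℝ → R}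

theorem IsDer.conn (h : IsDer D) : Conn D D := fun a m => by
  rw [smul_eq_mul, smul_eq_mul, smul_eq_mul, h, add_comm]

theorem relation_const {ι : Type} [Fintype ι] (hD : IsDer D) (hρ : Cst D ρ) (y : ι → R) (n : ℕ) :
    ∀ c : ι → R, (Function.support c).ncard ≤ n → c ≠ 0 → (∀ i, ∑ j, c j * D^[i] (y j) = 0) →
      ∃ r : ι → ℝ, (∃ j, ρ (r j) ≠ 0) ∧ ∑ j, ρ (r j) * y j = 0 := by
  induction n with
  | zero =>
    intro c hc h0
    rw [Nat.le_zero, Set.ncard_eq_zero, Function.support_eq_empty_iff] at hc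
    exact absurd hc h0
  | succ n ih =>
    intro c hc h0 hrel
    obtain ⟨j₀, hj₀⟩ := Function.ne_iff.1 h0
    have hD' : ∀ i, ∑ j, D (c j) * D^[i] (y j) = 0 := by
      intro i
      have h1 := congrArg D (hrel i)
      rw [map_sum, map_zero] at h1
      simp only [hD (c _), Finset.sum_add_distrib, ← Function.iterate_succ_apply' D] at h1
      rwa [hrel, zero_add] at h1
    by_cases h' : (fun j => c j₀ * D (c j) - D (c j₀) * c j) = 0
    · have : ∀ j, ∃ r, c j = ρ r * c j₀ := fun j => hρ _ _ hj₀ (by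
        have := congrFun h' j
        simp only [Pi.zero_apply] at this
        linear_combination this)
      choose r hr using this
      refine ⟨r, ⟨j₀, fun h => hj₀ (by rw [hr j₀, h, zero_mul]; rfl)⟩, ?_⟩
      refine mul_left_cancel₀ hj₀ ?_
      rw [Finset.mul_sum, mul_zero, ← hrel 0]
      refine Finset.sum_congr rfl fun j _ => ?_
      rw [hr j, Function.iterate_zero_apply]
      ring
    · refine ih _ ?_ h' fun i => ?_
      · have hsub : (Function.support fun j => c j₀ * D (c j) - D (c j₀) * c j) ⊆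
            Function.support c \ {j₀} := by
          intro j hj
          refine ⟨fun h => hj (by simp [h]), fun h => hj ?_⟩
          rw [Set.mem_singleton_iff.1 h]
          simp [mul_comm]
        have h1 := Set.ncard_le_ncard hsub
        rw [Set.ncard_sdiff_singleton_of_mem (show j₀ ∈ Function.support c from hj₀)] at h1
        omega
      · simp only [sub_mul, mul_assoc, Finset.sum_sub_distrib, ← Finset.mul_sum, hD', hrel]
        simp

theorem wronski (hD : IsDer D) (hρ : Cst D ρ) {L : R[X]} (hL : L ≠ 0)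
    (y : Fin (L.natDegree + 1) → R) (hy : ∀ j, act D (y j) L = 0) :
    ∃ r : Fin (L.natDegree + 1) → ℝ, (∃ j, ρ (r j) ≠ 0) ∧ ∑ j, ρ (r j) * y j = 0 := by
  let f : (Fin (L.natDegree + 1) → R) →ₗ[R] (Fin L.natDegree → R) :=
    LinearMap.pi fun i => ∑ j, (D^[i] (y j)) • LinearMap.proj j
  have hf : ¬Function.Injective f := fun h => absurd (le_of_fin_injective R f h) (by omega)
  rw [← LinearMap.ker_eq_bot, Submodule.eq_bot_iff] at hf
  push Not at hf
  obtain ⟨c, hc, h0⟩ := hf
  refine relation_const hD hρ y _ c le_rfl h0 fun i => ?_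
  induction i using Nat.strong_induction_on with
  | _ i ih =>
    by_cases hi : i < L.natDegree
    · have := congrFun (LinearMap.mem_ker.1 hc) ⟨i, hi⟩
      simpa [f, mul_comm] using this
    · obtain ⟨n, rfl⟩ := Nat.exists_eq_add_of_le (not_lt.1 hi)
      have hT := (Top.self L).iter (θ := D) n
      have h1 : ∀ j, L.leadingCoeff * D^[L.natDegree + n] (y j) =
          -∑ i ∈ Finset.range (L.natDegree + n), ((stp D)^[n] L).coeff i * D^[i] (y j) := by
        intro j
        have := hT.act (D := D) (y j)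
        rw [act_iter hD.conn, hy j, Function.iterate_fixed (map_zero D)] at this
        exact eq_neg_of_add_eq_zero_left this.symm
      refine mul_left_cancel₀ (leadingCoeff_ne_zero.2 hL) ?_
      rw [Finset.mul_sum, mul_zero]
      have : ∀ j, L.leadingCoeff * (c j * D^[L.natDegree + n] (y j)) =
          -∑ i ∈ Finset.range (L.natDegree + n), ((stp D)^[n] L).coeff i * (c j * D^[i] (y j)) := by
        intro j
        rw [mul_left_comm, h1, mul_neg, Finset.mul_sum]
        simp only [mul_left_comm]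
      simp only [this, Finset.sum_neg_distrib, neg_eq_zero]
      rw [Finset.sum_comm]
      refine Finset.sum_eq_zero fun i hi => ?_
      rw [← Finset.mul_sum, ih i (Finset.mem_range.1 hi), mul_zero]

end Wronski

section Poly

variable {k : Type} [CommRing k]

/-- The derivation of `k[X]` that extends `θ` and sends `X` to `1`. -/
def th (θ : k →+ k) : k[X] →+ k[X] := pext (cθ θ) 1

theorem th_coeff (θ : k →+ k) (p : k[X]) (i : ℕ) :
    (th θ p).coeff i = θ (p.coeff i) + p.coeff (i + 1) * (i + 1) := by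
  rw [th, pext_cθ_coeff, mul_one, coeff_derivative]

theorem th_C (θ : k →+ k) (a : k) : th θ (C a) = C (θ a) := pext_C _ _ _

theorem IsDer.th {θ : k →+ k} (h : IsDer θ) : IsDer (th θ) := h.cθ.pext 1

theorem IsDer.th_X {θ : k →+ k} (h : IsDer θ) : Pool.Agent.MP_97be6c_lc.th θ X = 1 :=
  pext_X h.cθ 1

theorem IsDer.conn_th {θ : k →+ k} (h : IsDer θ) : Conn θ (Pool.Agent.MP_97be6c_lc.th θ) :=
  fun a m => by rw [smul_eq_C_mul, smul_eq_C_mul, smul_eq_C_mul, h.th, th_C, add_comm]

theorem Top.natDegree_le {p : k[X]} {d : ℕ} {c : k} (h : Top p d c) : p.natDegree ≤ d :=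
  natDegree_le_iff_coeff_eq_zero.2 h.2

theorem Top.coeff_mul {p q : k[X]} {d e : ℕ} {u v : k} (hp : Top p d u) (hq : Top q e v) :
    (p * q).coeff (d + e) = u * v := by
  rw [coeff_mul_add_eq_of_natDegree_le hp.natDegree_le hq.natDegree_le, hp.1, hq.1]

theorem Top.th {θ : k →+ k} {p : k[X]} {d : ℕ} {c : k} (h : Top p d c) :
    Top (th θ p) d (θ c) :=
  ⟨by rw [th_coeff, h.1, h.2 _ (by omega)]; simp, fun i hi => by
    rw [th_coeff, h.2 _ hi, h.2 _ (by omega)]; simp⟩

theorem Top.X_mul_th {θ : k →+ k} (hθ : IsDer θ) {p : k[X]} {d : ℕ} (h : Top p d 1) :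
    ∃ a, Top (X * Pool.Agent.MP_97be6c_lc.th θ p) d (θ a + d) := by
  have h1 := h.th (θ := θ)
  rw [hθ.one] at h1
  have h2 : ∀ i, d < i → (X * Pool.Agent.MP_97be6c_lc.th θ p).coeff i = 0 := by
    intro i hi
    obtain ⟨j, rfl⟩ : ∃ j, i = j + 1 := ⟨i - 1, by omega⟩
    rw [coeff_X_mul]
    rcases (Nat.le_of_lt_succ hi).lt_or_eq with hj | hj
    · exact h1.2 j hj
    · exact hj ▸ h1.1
  cases d with
  | zero => exact ⟨0, by simp, h2⟩
  | succ d => exact ⟨p.coeff d, by rw [coeff_X_mul, th_coeff, h.1]; simp, h2⟩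

/-- The formal derivative as an additive map. -/
def dv : k[X] →+ k[X] := (derivative : k[X] →ₗ[k] k[X]).toAddMonoidHom

theorem dv_iter (n : ℕ) (p : k[X]) : dv^[n] p = derivative^[n] p := rfl

theorem isDer_dv : IsDer (dv : k[X] →+ k[X]) := fun p q => by
  change derivative (p * q) = p * derivative q + derivative p * q
  rw [derivative_mul, add_comm]

theorem dv_th {θ : k →+ k} (h : IsDer θ) (p : k[X]) : dv (th θ p) = th θ (dv p) := by
  ext i
  change (derivative (th θ p)).coeff i = (th θ (derivative p)).coeff i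
  have : θ ((i : k) + 1) = 0 := by rw [map_add, h.natCast, h.one, add_zero]
  rw [coeff_derivative, th_coeff, th_coeff, coeff_derivative, coeff_derivative, h, this]
  push_cast
  ring

theorem top_act_dv {L p : k[X]} {j e : ℕ} {u : k} (hL : ∀ i, i < j → L.coeff i = 0)
    (hp : Top p (e + j) u) : Top (act dv p L) e (L.coeff j * ((e + j).descFactorial j * u)) := by
  have key : ∀ m, (act dv p L).coeff m =
      ∑ i ∈ L.support, L.coeff i * ((m + i).descFactorial i * p.coeff (m + i)) := by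
    intro m
    rw [act_apply, sum_def, finsetSum_coeff]
    refine Finset.sum_congr rfl fun i _ => ?_
    rw [coeff_smul, dv_iter, coeff_iterate_derivative, smul_eq_mul, nsmul_eq_mul]
  constructor
  · rw [key, Finset.sum_eq_single j, hp.1]
    · intro i _ hij
      rcases lt_or_gt_of_ne hij with h | h
      · rw [hL i h, zero_mul]
      · rw [hp.2 _ (by omega)]; simp
    · intro h
      rw [notMem_support_iff.1 h, zero_mul]
  · intro m hm
    rw [key]
    refine Finset.sum_eq_zero fun i _ => ?_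
    by_cases h : i < j
    · rw [hL i h, zero_mul]
    · rw [hp.2 _ (by omega)]; simp

end Poly

section Field

variable {k : Type} [Field k]

theorem act_dv_eq_zero [CharZero k] {L p : k[X]} (hL : L ≠ 0) (h : act dv p L = 0) (i : ℕ)
    (hi : L.natDegree ≤ i) : p.coeff i = 0 := by
  by_contra hne
  have hp : p ≠ 0 := fun h0 => hne (by rw [h0, coeff_zero])
  have hle : L.natTrailingDegree ≤ p.natDegree :=
    (natTrailingDegree_le_natDegree L).trans (hi.trans (le_natDegree_of_ne_zero hne))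
  obtain ⟨e, he⟩ := Nat.exists_eq_add_of_le' hle
  have hT := Top.self p
  rw [he] at hT
  have := (top_act_dv (fun i hi => coeff_eq_zero_of_lt_natTrailingDegree hi) hT).1
  rw [h, coeff_zero] at this
  refine mul_ne_zero (mt trailingCoeff_eq_zero.1 hL) (mul_ne_zero ?_ (leadingCoeff_ne_zero.2 hp))
    this.symm
  exact Nat.cast_ne_zero.2 (Nat.descFactorial_pos.2 (by omega)).ne'

theorem dv_Dv [CharZero k] : Dv k (dv : k[X] →+ k[X]) := by
  intro L hL m
  have hadd : ∀ p q : k[X], act dv (p + q) L = act dv p L + act dv q L := by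
    intro p q
    simp only [act_apply, sum_def, ← Finset.sum_add_distrib, iterate_map_add, smul_add]
  induction hn : m.natDegree using Nat.strong_induction_on generalizing m with
  | _ n ih =>
    have hne : L.coeff L.natTrailingDegree * ((n + L.natTrailingDegree).descFactorial
        L.natTrailingDegree : k) ≠ 0 :=
      mul_ne_zero (mt trailingCoeff_eq_zero.1 hL)
        (Nat.cast_ne_zero.2 (Nat.descFactorial_pos.2 (by omega)).ne')
    obtain ⟨u, hu⟩ : ∃ u, L.coeff L.natTrailingDegree * ((n + L.natTrailingDegree).descFactorial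
        L.natTrailingDegree * u) = m.coeff n :=
      ⟨m.coeff n / _, by rw [← mul_assoc, mul_div_cancel₀ _ hne]⟩
    have hT : Top (monomial (n + L.natTrailingDegree) u) (n + L.natTrailingDegree) u :=
      ⟨coeff_monomial_same _ _, fun i hi => coeff_monomial_of_ne _ hi.ne'⟩
    have h1 := top_act_dv (fun i hi => coeff_eq_zero_of_lt_natTrailingDegree hi) hT
    rw [hu] at h1
    by_cases h0 : m - act dv (monomial (n + L.natTrailingDegree) u) L = 0
    · exact ⟨_, (sub_eq_zero.1 h0).symm⟩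
    · obtain ⟨m', hm'⟩ := ih _ (by
        rw [natDegree_lt_iff_degree_lt h0, degree_lt_iff_coeff_zero]
        intro i hi
        rw [coeff_sub]
        rcases hi.lt_or_eq with hi | hi
        · rw [h1.2 i hi, coeff_eq_zero_of_natDegree_lt (hn ▸ hi), sub_zero]
        · rw [← hi, h1.1, sub_self]) _ rfl
      exact ⟨m' + monomial (n + L.natTrailingDegree) u, by rw [hadd, hm', sub_add_cancel]⟩

theorem lc_eq {θ : k →+ k} (hθ : IsDer θ) {p q : k[X]} (hq : q ≠ 0) {l : k}
    (h : th θ p * q - p * th θ q = C l * (p * q)) :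
    θ (p.leadingCoeff * q.leadingCoeff⁻¹) = l * (p.leadingCoeff * q.leadingCoeff⁻¹) := by
  have h1 := congrArg (fun r : k[X] => r.coeff (p.natDegree + q.natDegree)) h
  simp only [coeff_sub, coeff_C_mul] at h1
  rw [(Top.self p).th.coeff_mul (Top.self q), (Top.self p).coeff_mul (Top.self q).th,
    (Top.self p).coeff_mul (Top.self q)] at h1
  have hv := leadingCoeff_ne_zero.2 hq
  rw [hθ, hθ.inv]
  field_simp
  linear_combination h1

theorem cst_th {θ : k →+ k} {ρ : ℝ →+* k} (hθ : IsDer θ) (hc : ∀ f, θ f = 0 → ∃ r, f = ρ r)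
    (hρ : ∀ r, θ (ρ r) = 0) (hP : ∀ f r, θ f = ρ r → r = 0) : Cst (th θ) fun r => C (ρ r) := by
  have key : ∀ p q : k[X], p ≠ 0 → q ≠ 0 → th θ p * q = p * th θ q →
      p.natDegree = q.natDegree ∧ ∃ r, p.leadingCoeff = ρ r * q.leadingCoeff := by
    intro p q hp hq h
    have hu := leadingCoeff_ne_zero.2 hp
    have hv := leadingCoeff_ne_zero.2 hq
    have h1 := lc_eq hθ hq (l := 0) (by rw [h]; simp)
    rw [zero_mul] at h1
    obtain ⟨r, hr⟩ := hc _ h1
    have hr' : p.leadingCoeff = ρ r * q.leadingCoeff := by rw [← hr]; field_simp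
    refine ⟨?_, r, hr'⟩
    have hr0 : ρ r ≠ 0 := fun h0 => hu (by rw [hr', h0, zero_mul])
    have hTp : Top (C p.leadingCoeff⁻¹ * p) p.natDegree 1 :=
      ⟨by rw [coeff_C_mul]; exact inv_mul_cancel₀ hu, fun i hi => by
        rw [coeff_C_mul, (Top.self p).2 i hi, mul_zero]⟩
    have hTq : Top (C q.leadingCoeff⁻¹ * q) q.natDegree 1 :=
      ⟨by rw [coeff_C_mul]; exact inv_mul_cancel₀ hv, fun i hi => by
        rw [coeff_C_mul, (Top.self q).2 i hi, mul_zero]⟩
    obtain ⟨a, ha⟩ := hTp.X_mul_th hθ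
    obtain ⟨b, hb⟩ := hTq.X_mul_th hθ
    have h2 : θ p.leadingCoeff⁻¹ * q.leadingCoeff⁻¹ = p.leadingCoeff⁻¹ * θ q.leadingCoeff⁻¹ := by
      rw [hr', mul_inv, hθ, ← map_inv₀, hρ]; ring
    have h3 : X * th θ (C p.leadingCoeff⁻¹ * p) * (C q.leadingCoeff⁻¹ * q) =
        C p.leadingCoeff⁻¹ * p * (X * th θ (C q.leadingCoeff⁻¹ * q)) := by
      have h2' := congrArg (C : k →+* k[X]) h2
      rw [map_mul, map_mul] at h2'
      rw [hθ.th, hθ.th, th_C, th_C]
      linear_combination X * C p.leadingCoeff⁻¹ * C q.leadingCoeff⁻¹ * h + X * p * q * h2'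
    have h4 := congrArg (fun r : k[X] => r.coeff (p.natDegree + q.natDegree)) h3
    rw [ha.coeff_mul hTq, hTp.coeff_mul hb] at h4
    have := hP (a - b) (q.natDegree - p.natDegree) (by
      rw [map_sub, map_sub, map_natCast, map_natCast]; linear_combination h4)
    exact_mod_cast (sub_eq_zero.1 this).symm
  intro p q hq h
  by_cases hp : p = 0
  · exact ⟨0, by simp [hp]⟩
  obtain ⟨hd, r, hr⟩ := key p q hp hq h
  refine ⟨r, sub_eq_zero.1 ?_⟩
  by_contra hne
  obtain ⟨hd', -⟩ := key _ q hne hq (by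
    rw [map_sub, hθ.th, th_C, hρ, map_zero]; linear_combination h)
  apply leadingCoeff_ne_zero.2 hne
  rw [leadingCoeff, hd', coeff_sub, coeff_C_mul, ← hd, coeff_natDegree, hr, hd, coeff_natDegree,
    sub_self]

end Field

end Pool.Agent.MP_97be6c_lc

end
end

-- part MP_97be6c_lc.Surj
section

set_option autoImplicit false
set_option linter.unusedSectionVars false

open Polynomial HahnSeries

noncomputable section

namespace Pool.Agent.MP_97be6c_lc

theorem act_add_left {k : Type} [CommRing k] {M : Type} [AddCommGroup M] [Module k M]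
    (D : M →+ M) (m m' : M) (L : k[X]) : act D (m + m') L = act D m L + act D m' L := by
  simp only [act_apply, sum_def, ← Finset.sum_add_distrib, iterate_map_add, smul_add]

section

variable {Λ : Type} [AddCommGroup Λ] [LinearOrder Λ] [IsOrderedAddMonoid Λ]
  {k : Type} [Field k]

variable (Λ k) in
/-- The inclusion `k⟦Λ⟧ → k[X]⟦Λ⟧`. -/
def jj : k⟦Λ⟧ →+* k[X]⟦Λ⟧ := hmap Polynomial.C (AddMonoidHom.id Λ) strictMono_id

theorem jj_coeff (a : k⟦Λ⟧) (γ : Λ) : (jj Λ k a).coeff γ = Polynomial.C (a.coeff γ) :=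
  hmap_coeff _ (AddMonoidHom.id Λ) _ a γ

theorem jj_injective : Function.Injective (jj Λ k) := (jj Λ k).injective

/-- Logarithmic derivatives as constant polynomials. -/
def clam (lam : Λ →+ k) : Λ →+ k[X] := (Polynomial.C : k →+* k[X]).toAddMonoidHom.comp lam

theorem clam_apply (lam : Λ →+ k) (γ : Λ) : clam lam γ = Polynomial.C (lam γ) := rfl

/-- The derivation on `k[X]⟦Λ⟧`. -/
def tt (θ : k →+ k) (lam : Λ →+ k) : k[X]⟦Λ⟧ →+ k[X]⟦Λ⟧ := hder (th θ) (clam lam)

theorem IsDer.tt {θ : k →+ k} (h : IsDer θ) (lam : Λ →+ k) : IsDer (tt θ lam) := h.th.hder _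

theorem tt_jj (θ : k →+ k) (lam : Λ →+ k) (a : k⟦Λ⟧) :
    tt θ lam (jj Λ k a) = jj Λ k (hder θ lam a) := by
  ext1
  funext γ
  rw [tt, hder_coeff, jj_coeff, jj_coeff, hder_coeff, th_C, clam_apply, map_sub, map_mul]

variable (Λ k) in
/-- The inclusion `k⟦Λ⟧[X] → k[X]⟦Λ⟧`. -/
def io : k⟦Λ⟧[X] →+* k[X]⟦Λ⟧ := eval₂RingHom (jj Λ k) (HahnSeries.C X)

theorem io_coeff (p : k⟦Λ⟧[X]) (γ : Λ) (i : ℕ) :
    ((io Λ k p).coeff γ).coeff i = (p.coeff i).coeff γ := by
  induction p using Polynomial.induction_on' with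
  | add p q hp hq =>
    rw [map_add, HahnSeries.coeff_add, Polynomial.coeff_add, hp, hq, Polynomial.coeff_add,
      HahnSeries.coeff_add]
  | monomial n a =>
    rw [io, coe_eval₂RingHom, eval₂_monomial, ← map_pow, HahnSeries.C_apply,
      coeff_mul_single_zero, jj_coeff, C_mul_X_pow_eq_monomial, coeff_monomial, coeff_monomial]
    split_ifs <;> rfl

theorem io_injective : Function.Injective (io Λ k) := by
  intro p q h
  ext i γ
  rw [← io_coeff, ← io_coeff, h]

theorem io_th {θ : k →+ k} (h : IsDer θ) (lam : Λ →+ k) (p : k⟦Λ⟧[X]) :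
    tt θ lam (io Λ k p) = io Λ k (th (hder θ lam) p) := by
  have := pext_eval₂ (d := cθ (hder θ lam)) (g := 1) (h.tt lam) (jj Λ k) (HahnSeries.C X) 1
    (fun a => by rw [tt_jj, cθ_apply, eval₂_C, one_mul])
    (by rw [tt, hder_C, h.th_X, eval₂_one, one_mul, map_one]) p
  rwa [one_mul] at this

theorem io_C (a : k⟦Λ⟧) : io Λ k (Polynomial.C a) = jj Λ k a := eval₂_C _ _

theorem exists_io (y : k[X]⟦Λ⟧) (d : ℕ) (h : ∀ γ i, d ≤ i → (y.coeff γ).coeff i = 0) :
    ∃ p, io Λ k p = y := by
  let cf : ℕ → k⟦Λ⟧ := fun i => ⟨fun γ => (y.coeff γ).coeff i,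
    y.isPWO_support.mono fun γ h h0 => h (by simp [h0])⟩
  refine ⟨∑ i ∈ Finset.range d, monomial i (cf i), ?_⟩
  ext γ i
  rw [io_coeff, finsetSum_coeff]
  simp only [coeff_monomial, Finset.sum_ite_eq', Finset.mem_range]
  split_ifs with hi
  · rfl
  · exact (h γ i (not_lt.1 hi)).symm

theorem io_act {θ : k →+ k} (h : IsDer θ) (lam : Λ →+ k) (p L : k⟦Λ⟧[X]) :
    io Λ k (act (th (hder θ lam)) p L) = act (tt θ lam) (io Λ k p) (L.map (jj Λ k)) := by
  induction L using Polynomial.induction_on' with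
  | add p q hp hq => rw [map_add, map_add, hp, hq, Polynomial.map_add, map_add]
  | monomial i a =>
    rw [Polynomial.map_monomial, act_monomial, act_monomial, smul_eq_C_mul, map_mul, io_C,
      smul_eq_mul]
    congr 1
    exact (Function.Semiconj.iterate_right (f := io Λ k) (fun p => (io_th h lam p).symm) i p)

/-- The coefficientwise derivative with respect to `X`. -/
def nn : k[X]⟦Λ⟧ →+ k[X]⟦Λ⟧ := hder dv 0

theorem nn_coeff (y : k[X]⟦Λ⟧) (γ : Λ) : (nn y).coeff γ = dv (y.coeff γ) := by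
  rw [nn, hder_coeff]; simp

theorem nn_iter_coeff (y : k[X]⟦Λ⟧) (γ : Λ) (n : ℕ) :
    (nn^[n] y).coeff γ = dv^[n] (y.coeff γ) :=
  Function.Semiconj.iterate_right (f := fun y : k[X]⟦Λ⟧ => y.coeff γ)
    (fun y => nn_coeff y γ) n y

theorem nn_act {θ : k →+ k} (h : IsDer θ) (lam : Λ →+ k) (y : k[X]⟦Λ⟧) (L : k⟦Λ⟧[X]) :
    nn (act (tt θ lam) y (L.map (jj Λ k))) = act (tt θ lam) (nn y) (L.map (jj Λ k)) := by
  have h1 : ∀ y : k[X]⟦Λ⟧, nn (tt θ lam y) = tt θ lam (nn y) := by
    intro y
    ext1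
    funext γ
    rw [nn_coeff, tt, hder_coeff, hder_coeff, nn_coeff, map_sub, dv_th h, clam_apply,
      isDer_dv.const_mul derivative_C]
  have h2 : ∀ a, nn (jj Λ k a) = 0 := by
    intro a
    ext1
    funext γ
    rw [nn_coeff, jj_coeff]
    exact derivative_C
  induction L using Polynomial.induction_on' with
  | add p q hp hq => rw [Polynomial.map_add, map_add, map_add, hp, hq, map_add]
  | monomial i a =>
    have hn : IsDer (nn : k[X]⟦Λ⟧ →+ k[X]⟦Λ⟧) := isDer_dv.hder 0
    rw [Polynomial.map_monomial, act_monomial, act_monomial, smul_eq_mul, smul_eq_mul,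
      hn.const_mul (h2 a)]
    congr 1
    exact Function.Semiconj.iterate_right (f := nn) h1 i y

variable [LinearOrder k] [IsStrictOrderedRing k]
  {θ : k →+ k} {lam : Λ →+ k} {ex : k → k⟦Λ⟧} {ρ : ℝ →+* k}

theorem Pre.cst_tt (h : Pre θ lam ex ρ) :
    Cst (tt θ lam) fun r => HahnSeries.C (Polynomial.C (ρ r)) := by
  have hl : ∀ {p : k[X]⟦Λ⟧} {α c}, Lead p α c → Lead (tt θ lam p) α (th θ c - clam lam α * c) :=
    fun {p α c} hp => ⟨by rw [tt, hder_coeff, hp.1], fun β hβ => by
      rw [tt, hder_coeff, hp.2 β hβ]; simp⟩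
  have key : ∀ {p q : k[X]⟦Λ⟧} {α β c d}, Lead p α c → Lead q β d → c ≠ 0 → d ≠ 0 →
      tt θ lam p * q = p * tt θ lam q → α = β ∧ th θ c * d = c * th θ d := by
    intro p q α β c d hp hq hc hd he
    have h1 := ((hl hp).mul hq).1
    rw [he, (hp.mul (hl hq)).1] at h1
    have h2 := lc_eq h.der (p := c) hd (l := lam (α - β)) (by
      rw [map_sub, map_sub, ← clam_apply, ← clam_apply]; linear_combination -h1)
    have hαβ : α = β := by
      by_contra hne
      exact h.Q _ (sub_ne_zero.2 hne) _ (mul_ne_zero (leadingCoeff_ne_zero.2 hc)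
        (inv_ne_zero (leadingCoeff_ne_zero.2 hd))) h2
    subst hαβ
    exact ⟨rfl, by linear_combination -h1⟩
  intro p q hq he
  by_cases hp : p = 0
  · exact ⟨0, by simp [hp]⟩
  obtain ⟨α, c, hc, hpl⟩ := exists_lead hp
  obtain ⟨β, d, hd, hql⟩ := exists_lead hq
  obtain ⟨rfl, h1⟩ := key hpl hql hc hd he
  obtain ⟨r, hr⟩ := cst_th h.der h.const h.θρ h.P c d hd h1
  refine ⟨r, sub_eq_zero.1 ?_⟩
  by_contra hne
  beta_reduce at hne hr
  obtain ⟨γ, e, he0, hel⟩ := exists_lead hne
  obtain ⟨rfl, -⟩ := key hel hql he0 hd (by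
    rw [map_sub, h.der.tt lam, tt, hder_C, th_C, h.θρ, map_zero, map_zero, ← tt]
    linear_combination he)
  apply he0
  rw [← hel.1, HahnSeries.coeff_sub, HahnSeries.C_apply, coeff_single_zero_mul, hpl.1, hql.1, hr,
    sub_self]

theorem Pre.bounded (h : Pre θ lam ex ρ) {L : k⟦Λ⟧[X]} (hL : L ≠ 0) {y : k[X]⟦Λ⟧}
    (hy : act (tt θ lam) y (L.map (jj Λ k)) = 0) (γ : Λ) (i : ℕ)
    (hi : (L.map (jj Λ k)).natDegree ≤ i) : (y.coeff γ).coeff i = 0 := by
  have hL' : L.map (jj Λ k) ≠ 0 := (Polynomial.map_ne_zero_iff jj_injective).2 hL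
  obtain ⟨r, ⟨j₀, hj₀⟩, hr⟩ := wronski (h.der.tt lam) h.cst_tt hL' (fun j => nn^[j] y) fun j => by
    have := Function.Semiconj.iterate_right
      (f := fun y => act (tt θ lam) y (L.map (jj Λ k))) (fun y => (nn_act h.der lam y L).symm) j y
    simp only at this
    rw [this, hy, Function.iterate_fixed (map_zero nn)]
  let P : k[X] := ∑ j : Fin ((L.map (jj Λ k)).natDegree + 1), monomial j (ρ (r j))
  have hP : ∀ j : Fin ((L.map (jj Λ k)).natDegree + 1), P.coeff j = ρ (r j) := by
    intro j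
    rw [finsetSum_coeff, Finset.sum_eq_single j, coeff_monomial_same]
    · intro j' _ hne
      exact coeff_monomial_of_ne _ (fun h => hne (Fin.ext h.symm))
    · simp
  refine act_dv_eq_zero (L := P) (fun h0 => hj₀ ?_) ?_ i (le_trans ?_ hi)
  · rw [← hP, h0]; simp
  · have := congrArg (fun y : k[X]⟦Λ⟧ => y.coeff γ) hr
    simp only [HahnSeries.coeff_sum, HahnSeries.C_apply, coeff_single_zero_mul, nn_iter_coeff,
      HahnSeries.coeff_zero] at this
    rw [map_sum, ← this]
    exact Finset.sum_congr rfl fun j _ => by rw [act_monomial, smul_eq_C_mul]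
  · exact natDegree_sum_le_of_forall_le _ _ fun j _ =>
      (natDegree_monomial_le _).trans (Nat.le_of_lt_succ j.2)

theorem Pre.solve (h : Pre θ lam ex ρ) (hv : Dv k (th θ)) {L : k⟦Λ⟧[X]}
    (h1 : ∀ i, ∀ γ ∈ (L.coeff i).support, 0 ≤ γ) (h2 : ∃ i, (L.coeff i).coeff 0 ≠ 0)
    (f : k[X]⟦Λ⟧) : ∃ y, act (tt θ lam) y (L.map (jj Λ k)) = f := by
  have hact : ∀ y, act (tt θ lam) y (L.map (jj Λ k)) =
      ∑ i ∈ L.support, jj Λ k (L.coeff i) * (tt θ lam)^[i] y := by
    intro y
    conv_lhs => rw [L.as_sum_support, Polynomial.map_sum, map_sum]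
    exact Finset.sum_congr rfl fun i _ => by rw [Polynomial.map_monomial, act_monomial, smul_eq_mul]
  refine Pool.Agent.MP_97be6c_lc.solve
    (AddMonoidHom.mk' (fun y => act (tt θ lam) y (L.map (jj Λ k))) fun y y' => act_add_left _ _ _ _)
    (S := ⋃ i ∈ L.support, (L.coeff i).support)
    (L.support.isPWO_bUnion.2 fun i _ => (L.coeff i).isPWO_support) (fun a ha => ?_)
    (fun g γ hγ => ?_) (fun γ c => ?_) f
  · obtain ⟨i, -, hi⟩ := Set.mem_iUnion₂.1 ha
    exact h1 i a hi
  · rw [AddMonoidHom.mk'_apply, hact, HahnSeries.coeff_sum] at hγ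
    obtain ⟨i, hi, hne⟩ := Finset.exists_ne_zero_of_sum_ne_zero hγ
    obtain ⟨a, ha, β, hβ, rfl⟩ := support_mul_subset ((HahnSeries.mem_support _ _).2 hne)
    refine ⟨a, Set.mem_iUnion₂.2 ⟨i, hi, fun h0 => ha ?_⟩, β, ?_, rfl⟩
    · rw [jj_coeff, h0, map_zero]
    · clear hne hγ hi ha
      induction i with
      | zero => exact hβ
      | succ i ih =>
        rw [Function.iterate_succ_apply'] at hβ
        exact ih (support_hder _ _ _ hβ)
  · let N : k[X] →+ k[X] := th θ - AddMonoidHom.mulLeft (clam lam γ)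
    have hN : Dv k N := hv.twist h.der.conn_th (c := 1) (l := -lam γ) one_ne_zero fun m => by
      rw [one_smul, neg_smul, smul_eq_C_mul, ← sub_eq_add_neg]; rfl
    let L₀ : k[X] := ∑ i ∈ L.support, monomial i ((L.coeff i).coeff 0)
    obtain ⟨d, hd⟩ := hN L₀ (fun h0 => by
      obtain ⟨i, hi⟩ := h2
      have := congrArg (fun p : k[X] => p.coeff i) h0
      simp only [L₀, finsetSum_coeff, coeff_monomial, Finset.sum_ite_eq',
        Polynomial.coeff_zero] at this
      rw [if_pos (mem_support_iff.2 fun h => hi (by rw [h]; rfl))] at this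
      exact hi this) c
    refine ⟨d, ?_⟩
    rw [AddMonoidHom.mk'_apply, hact, HahnSeries.coeff_sum, ← hd, map_sum]
    refine Finset.sum_congr rfl fun i _ => ?_
    have : (tt θ lam)^[i] (single γ d) = single γ (N^[i] d) :=
      (Function.Semiconj.iterate_right (f := fun d => (single γ d : k[X]⟦Λ⟧))
        (fun d => (hder_single _ _ _ _).symm) i d).symm
    rw [this, coeff_mul_single, sub_self, jj_coeff, act_monomial, smul_eq_C_mul]

theorem Pre.dv (h : Pre θ lam ex ρ) (hv : Dv k (th θ)) : Dv k⟦Λ⟧ (th (hder θ lam)) := by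
  intro L hL m
  obtain ⟨i₀, hi₀, hmin⟩ := L.support.exists_min_image (fun i => (L.coeff i).order)
    (nonempty_support_iff.2 hL)
  set v := (L.coeff i₀).order
  let u : k⟦Λ⟧ := single (-v) 1
  have hu : u ≠ 0 := single_ne_zero one_ne_zero
  have hc : ∀ i γ, ((u • L).coeff i).coeff γ = (L.coeff i).coeff (γ + v) := by
    intro i γ
    rw [Polynomial.coeff_smul, smul_eq_mul, coeff_single_mul, one_mul, sub_neg_eq_add]
  have hL' : u • L ≠ 0 := smul_ne_zero hu hL
  obtain ⟨y, hy⟩ := h.solve hv (L := u • L) (fun i γ hγ => by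
    rw [HahnSeries.mem_support, hc] at hγ
    have h1 := hmin i (mem_support_iff.2 (ne_zero_of_coeff_ne_zero hγ))
    exact le_of_add_le_add_right ((zero_add v).trans_le (h1.trans (order_le_of_coeff_ne_zero hγ))))
    ⟨i₀, by rw [hc, zero_add]; exact coeff_order_eq_zero.not.2 (mem_support_iff.1 hi₀)⟩
    (io Λ k (u • m))
  let n := (u • m).natDegree + 1
  have h0 : act (tt θ lam) (nn^[n] y) ((u • L).map (jj Λ k)) = 0 := by
    have := Function.Semiconj.iterate_right
      (f := fun y => act (tt θ lam) y ((u • L).map (jj Λ k)))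
      (fun y => (nn_act h.der lam y (u • L)).symm) n y
    simp only at this
    rw [this, hy]
    ext γ i
    rw [nn_iter_coeff, dv_iter, coeff_iterate_derivative, io_coeff,
      coeff_eq_zero_of_natDegree_lt (by omega)]
    simp
  obtain ⟨p, rfl⟩ := exists_io y (((u • L).map (jj Λ k)).natDegree + n) fun γ i hi => by
    have := h.bounded hL' h0 γ (i - n) (by omega)
    rw [nn_iter_coeff, dv_iter, coeff_iterate_derivative, Nat.sub_add_cancel (by omega),
      nsmul_eq_mul] at this
    exact (mul_eq_zero.1 this).resolve_left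
      (Nat.cast_ne_zero.2 (Nat.descFactorial_pos.2 (by omega)).ne')
  rw [← io_act h.der, io_injective.eq_iff, map_smul] at hy
  exact ⟨p, smul_right_injective _ hu hy⟩

end

theorem dv_stage : ∀ m : ℕ, Dv (stage m).K (th (stage m).θ)
  | 0 => pre_base.dv (by
      have : th (0 : ℝ →+ ℝ) = dv := by
        refine AddMonoidHom.ext fun p => Polynomial.ext fun i => ?_
        rw [th_coeff]
        simp [dv, coeff_derivative]
      rw [this]
      exact dv_Dv)
  | m + 1 => (good m).pre.dv (dv_stage m)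

end Pool.Agent.MP_97be6c_lc

end
end

-- part MP_97be6c_lc.Extend
section

set_option autoImplicit false
set_option linter.unusedSectionVars false

open Polynomial

noncomputable section

namespace Pool.Agent.MP_97be6c_lc

/-- Derivations with values in a module. -/
def IsDerM {L M : Type} [CommRing L] [AddCommGroup M] [Module L M] (δ : L →+ M) : Prop :=
  ∀ a b, δ (a * b) = a • δ b + b • δ a

theorem smooth_of_charZero (K L : Type) [Field K] [Field L] [Algebra K L] [CharZero K] :
    Algebra.FormallySmooth K L := by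
  obtain ⟨s, hs⟩ := exists_isTranscendenceBasis K L
  have := hs.isAlgebraic_field
  have : CharZero L := charZero_of_injective_algebraMap (algebraMap K L).injective
  exact .of_algebraicIndependent_of_isSeparable hs.1

/-- A derivation defined on a subring extends to the whole field. -/
theorem extend_plain {R L M : Type} [CommRing R] [IsDomain R] [Field L] [CharZero R]
    [AddCommGroup M] [Module L M] (φ : R →+* L) (hφ : Function.Injective φ) (d : R →+ M)
    (hd : ∀ a b, d (a * b) = φ a • d b + φ b • d a) :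
    ∃ δ : L →+ M, IsDerM δ ∧ ∀ r, δ (φ r) = d r := by
  let : Algebra R L := φ.toAlgebra
  have : FaithfulSMul R L := (faithfulSMul_iff_algebraMap_injective R L).2 hφ
  let : Algebra (FractionRing R) L := FractionRing.liftAlgebra R L
  have : Algebra.FormallySmooth R (FractionRing R) := .of_isLocalization (nonZeroDivisors R)
  have : Algebra.FormallySmooth (FractionRing R) L := smooth_of_charZero _ _
  have : Algebra.FormallySmooth R L := .comp R (FractionRing R) L
  let : Module Lᵐᵒᵖ M := Module.compHom M ((RingHom.id L).fromOpposite mul_comm)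
  have : IsCentralScalar L M := ⟨fun _ _ => rfl⟩
  have hd1 : d 1 = 0 := by
    have := hd 1 1
    simpa using this
  let ψ : R →+* TrivSqZeroExt L M :=
    { toFun := fun r => TrivSqZeroExt.inl (φ r) + TrivSqZeroExt.inr (d r)
      map_one' := by ext <;> simp [hd1]
      map_mul' := fun a b => by
        ext
        · simp
        · simp [hd]
      map_zero' := by ext <;> simp
      map_add' := fun a b => by ext <;> simp }
  let : Algebra R (TrivSqZeroExt L M) := ψ.toAlgebra
  let g : TrivSqZeroExt L M →ₐ[R] L :=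
    { (TrivSqZeroExt.fstHom L L M).toRingHom with
      commutes' := fun r => by
        change (ψ r).fst = φ r
        simp [ψ] }
  have hg : Function.Surjective g := fun a => ⟨TrivSqZeroExt.inl a, rfl⟩
  have hn : IsNilpotent (RingHom.ker (g : TrivSqZeroExt L M →+* L)) := by
    refine ⟨2, ?_⟩
    rw [pow_two, Ideal.zero_eq_bot, eq_bot_iff, Ideal.mul_le]
    intro a ha b hb
    have ha' : a.fst = 0 := ha
    have hb' : b.fst = 0 := hb
    rw [Ideal.mem_bot]
    ext <;> simp [ha', hb']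
  let s := Algebra.FormallySmooth.liftOfSurjective (AlgHom.id R L) g hg hn
  have hs : ∀ a, (s a).fst = a := fun a =>
    Algebra.FormallySmooth.liftOfSurjective_apply (AlgHom.id R L) g hg hn a
  refine ⟨{ toFun := fun a => (s a).snd
            map_zero' := by simp
            map_add' := fun a b => by simp }, fun a b => ?_, fun r => ?_⟩
  · change (s (a * b)).snd = a • (s b).snd + b • (s a).snd
    rw [map_mul, TrivSqZeroExt.snd_mul, hs, hs, op_smul_eq_smul]
  · change (s (algebraMap R L r)).snd = d r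
    rw [s.commutes]
    change (ψ r).snd = d r
    simp [ψ]

section Zorn

variable {L : Type} [Field L] {W M : Type} [AddCommGroup W] [Module L W] [AddCommGroup M]
  [Module L M] {θ : L →+ L} {D : W →+ W} {N : M →+ M}

theorem act_prod (D : W →+ W) (N : M →+ M) (w : W) (m : M) (P : L[X]) :
    act (D.prodMap N) (w, m) P = (act D w P, act N m P) := by
  induction P using Polynomial.induction_on' with
  | add p q hp hq => rw [map_add, map_add, map_add, hp, hq]; rfl
  | monomial i a =>
    rw [act_monomial, act_monomial, act_monomial]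
    have : ∀ i : ℕ, (D.prodMap N)^[i] (w, m) = (D^[i] w, N^[i] m) := by
      intro i
      induction i with
      | zero => rfl
      | succ i ih => simp only [Function.iterate_succ_apply', ih]; rfl
    rw [this]; rfl

/-- One step in the extension of a homomorphism of differential modules. -/
theorem graph_step (hD : Conn θ D) (hN : Conn θ N) (hv : Dv L N) (G : Submodule L (W × M))
    (hst : ∀ u ∈ G, D.prodMap N u ∈ G) (w : W) :
    ∃ m, ∀ P : L[X], (∃ m', (act D w P, m') ∈ G) → act (D.prodMap N) (w, m) P ∈ G := by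
  have hΔ : Conn θ (D.prodMap N) := fun a u => Prod.ext (hD a u.1) (hN a u.2)
  have hit : ∀ n : ℕ, ∀ u ∈ G, (D.prodMap N)^[n] u ∈ G := by
    intro n u hu
    induction n with
    | zero => exact hu
    | succ n ih => rw [Function.iterate_succ_apply']; exact hst _ ih
  by_cases h : ∃ d : ℕ, ∃ P : L[X], P ≠ 0 ∧ P.natDegree = d ∧ ∃ m', (act D w P, m') ∈ G
  · classical
    obtain ⟨P, hP0, hPd, m₀, hm₀⟩ := Nat.find_spec h
    obtain ⟨m, hm⟩ := hv P hP0 m₀
    have hPG : act (D.prodMap N) (w, m) P ∈ G := by rw [act_prod, hm]; exact hm₀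
    refine ⟨m, fun Q => ?_⟩
    induction hn : Q.natDegree using Nat.strong_induction_on generalizing Q with
    | _ n ih =>
      rintro ⟨m', hm'⟩
      by_cases hQ : Q = 0
      · rw [hQ, map_zero]; exact G.zero_mem
      have hle : P.natDegree ≤ n := by
        rw [hPd]; exact Nat.find_min' h ⟨Q, hQ, hn, m', hm'⟩
      obtain ⟨j, hj⟩ := Nat.exists_eq_add_of_le hle
      let c : L := Q.leadingCoeff / P.leadingCoeff
      let P' : L[X] := c • (stp θ)^[j] P
      have hP' : act (D.prodMap N) (w, m) P' ∈ G := by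
        rw [map_smul, act_iter hΔ]
        exact G.smul_mem _ (hit j _ hPG)
      have hT := (Top.self P).iter (θ := θ) j
      by_cases hQP : Q - P' = 0
      · rw [sub_eq_zero.1 hQP]; exact hP'
      have hlt : (Q - P').natDegree < n := by
        rw [natDegree_lt_iff_degree_lt hQP, degree_lt_iff_coeff_zero]
        intro i hi
        rw [coeff_sub, coeff_smul]
        rcases hi.lt_or_eq with hi | hi
        · rw [hT.2 i (hj ▸ hi), coeff_eq_zero_of_natDegree_lt (hn ▸ hi)]; simp
        · rw [← hi, hj, hT.1, ← hj, ← hn, smul_eq_mul, div_mul_cancel₀ _ (leadingCoeff_ne_zero.2 hP0)]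
          exact sub_self _
      have := ih _ hlt (Q - P') rfl ⟨m' - act N m P', by
        have := G.sub_mem hm' hP'
        rwa [act_prod, Prod.mk_sub_mk, ← map_sub] at this⟩
      have h2 := G.add_mem this hP'
      rwa [← map_add, sub_add_cancel] at h2
  · refine ⟨0, fun P hP => ?_⟩
    have : P = 0 := by
      by_contra hne
      exact h ⟨_, P, hne, rfl, hP⟩
    rw [this, map_zero]; exact G.zero_mem

/-- A homomorphism from a differential submodule to a divisible module extends. -/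
theorem graph_extend (hD : Conn θ D) (hN : Conn θ N) (hv : Dv L N) (G₀ : Submodule L (W × M))
    (hst : ∀ u ∈ G₀, D.prodMap N u ∈ G₀) (hgr : ∀ m, ((0 : W), m) ∈ G₀ → m = 0) :
    ∃ f : W →ₗ[L] M, (∀ w, f (D w) = N (f w)) ∧ ∀ u ∈ G₀, f u.1 = u.2 := by
  have hΔ : Conn θ (D.prodMap N) := fun a u => Prod.ext (hD a u.1) (hN a u.2)
  let 𝒢 : Set (Submodule L (W × M)) :=
    {G | (∀ u ∈ G, D.prodMap N u ∈ G) ∧ ∀ m, ((0 : W), m) ∈ G → m = 0}
  obtain ⟨G, hG0, hG⟩ := zorn_le_nonempty₀ 𝒢 (fun c hc hch y hy => by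
    refine ⟨sSup c, ⟨fun u hu => ?_, fun m hm => ?_⟩, fun z hz => le_sSup hz⟩
    · obtain ⟨G, hG, hu⟩ := (Submodule.mem_sSup_of_directed ⟨y, hy⟩ hch.directedOn).1 hu
      exact le_sSup hG ((hc hG).1 u hu)
    · obtain ⟨G, hG, hu⟩ := (Submodule.mem_sSup_of_directed ⟨y, hy⟩ hch.directedOn).1 hm
      exact (hc hG).2 m hu) G₀ ⟨hst, hgr⟩
  have hall : ∀ w, ∃ m, (w, m) ∈ G := by
    intro w
    obtain ⟨m, hm⟩ := graph_step hD hN hv G hG.1.1 w
    let G' : Submodule L (W × M) := G ⊔ LinearMap.range (act (D.prodMap N) (w, m))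
    have h' : G' ∈ 𝒢 := by
      constructor
      · intro u hu
        obtain ⟨a, ha, b, ⟨P, rfl⟩, rfl⟩ := Submodule.mem_sup.1 hu
        rw [map_add, ← act_stp hΔ]
        exact Submodule.add_mem_sup (hG.1.1 a ha) ⟨_, rfl⟩
      · intro m' hm'
        obtain ⟨a, ha, b, ⟨P, rfl⟩, hab⟩ := Submodule.mem_sup.1 hm'
        have h1 : act D w P = -a.1 := by
          have := congrArg Prod.fst hab
          rw [act_prod] at this
          exact eq_neg_of_add_eq_zero_right this
        have h2 := hm P ⟨-a.2, by rw [h1]; exact G.neg_mem ha⟩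
        exact hG.1.2 m' (hab ▸ G.add_mem ha h2)
    have hle : G' ≤ G := hG.2 h' le_sup_left
    exact ⟨m, hle (Submodule.mem_sup_right ⟨1, act_one _ _⟩)⟩
  choose f hf using hall
  have huniq : ∀ w m, (w, m) ∈ G → f w = m := fun w m h => by
    have := G.sub_mem (hf w) h
    rw [Prod.mk_sub_mk, sub_self] at this
    exact sub_eq_zero.1 (hG.1.2 _ this)
  exact ⟨{ toFun := f
           map_add' := fun a b => huniq _ _ (G.add_mem (hf a) (hf b))
           map_smul' := fun c a => huniq _ _ (G.smul_mem c (hf a)) },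
    fun w => huniq _ _ (hG.1.1 _ (hf w)), fun u hu => huniq _ _ (hG0 hu)⟩

/-- A derivation that commutes with `θ` on a `θ`-stable set can be modified outside that set so
that it commutes with `θ` everywhere. -/
theorem extend_comm (hθ : IsDer θ) (hN : Conn θ N) (hv : Dv L N) (δ₁ : L →+ M) (h1 : IsDerM δ₁)
    (Z : Set L) (hZ : ∀ z ∈ Z, θ z ∈ Z) (hc : ∀ z ∈ Z, δ₁ (θ z) = N (δ₁ z)) :
    ∃ δ : L →+ M, IsDerM δ ∧ (∀ a, δ (θ a) = N (δ a)) ∧ ∀ z ∈ Z, δ z = δ₁ z := by
  let e : L → (L →₀ L) := fun u => Finsupp.single u 1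
  let D : (L →₀ L) →+ (L →₀ L) := Finsupp.liftAddHom fun u =>
    (Finsupp.singleAddHom u).comp θ + Finsupp.singleAddHom (θ u)
  have hDs : ∀ u a, D (Finsupp.single u a) = θ a • e u + a • e (θ u) := fun u a => by
    simp [D, e]
  have hDe : ∀ u, D (e u) = e (θ u) := fun u => by
    rw [hDs, hθ.one, zero_smul, one_smul, zero_add]
  have hD : Conn θ D := by
    intro a w
    induction w using Finsupp.induction_linear with
    | zero => simp
    | add f g hf hg => rw [smul_add, map_add, hf, hg, map_add, smul_add, smul_add]; abel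
    | single u b =>
      rw [Finsupp.smul_single, hDs, hDs, smul_eq_mul, hθ]
      simp only [e, Finsupp.smul_single, smul_eq_mul, mul_one, smul_add, Finsupp.single_add]
      abel
  have hΔ : Conn θ (D.prodMap N) := fun a u => Prod.ext (hD a u.1) (hN a u.2)
  let S : Set ((L →₀ L) × M) := {u | (∃ z ∈ Z, u = (e z, δ₁ z)) ∨
    (∃ a b, u = (e (a + b) - e a - e b, 0)) ∨ ∃ a b, u = (e (a * b) - a • e b - b • e a, 0)}
  have hadd : ∀ a b, ((e (a + b) - e a - e b, 0) : (L →₀ L) × M) ∈ Submodule.span L S :=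
    fun a b => Submodule.subset_span (Or.inr (Or.inl ⟨a, b, rfl⟩))
  have hmul : ∀ a b, ((e (a * b) - a • e b - b • e a, 0) : (L →₀ L) × M) ∈ Submodule.span L S :=
    fun a b => Submodule.subset_span (Or.inr (Or.inr ⟨a, b, rfl⟩))
  obtain ⟨f, hf1, hf2⟩ := graph_extend hD hN hv (Submodule.span L S) (fun u hu => by
    induction hu using Submodule.span_induction with
    | mem u hu =>
      rcases hu with ⟨z, hz, rfl⟩ | ⟨a, b, rfl⟩ | ⟨a, b, rfl⟩
      · exact Submodule.subset_span (Or.inl ⟨θ z, hZ z hz, Prod.ext (hDe z) (hc z hz).symm⟩)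
      · refine Set.mem_of_eq_of_mem (Prod.ext ?_ ((map_zero N).trans (by simp))) (hadd (θ a) (θ b))
        change D (e (a + b) - e a - e b) = _
        rw [map_sub, map_sub, hDe, hDe, hDe, map_add]
      · have := Submodule.add_mem _ (Submodule.add_mem _ (hadd (a * θ b) (θ a * b)) (hmul a (θ b)))
          (hmul (θ a) b)
        refine Set.mem_of_eq_of_mem (Prod.ext ?_ ((map_zero N).trans (by simp))) this
        change D (e (a * b) - a • e b - b • e a) = _
        rw [map_sub, map_sub, hD, hD, hDe, hDe, hDe, hθ]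
        simp only [Prod.fst_add]
        abel
    | zero => rw [map_zero]; exact Submodule.zero_mem _
    | add u v _ _ hu hv => rw [map_add]; exact Submodule.add_mem _ hu hv
    | smul a u hu0 hu =>
      rw [hΔ]
      exact Submodule.add_mem _ (Submodule.smul_mem _ _ hu0) (Submodule.smul_mem _ _ hu)) (by
    let f₁ : (L →₀ L) →ₗ[L] M := Finsupp.linearCombination L δ₁
    have hf₁ : ∀ u, f₁ (e u) = δ₁ u := fun u => by simp [f₁, e]
    have : ∀ u ∈ Submodule.span L S, f₁ u.1 = u.2 := by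
      intro u hu
      induction hu using Submodule.span_induction with
      | mem u hu =>
        rcases hu with ⟨z, hz, rfl⟩ | ⟨a, b, rfl⟩ | ⟨a, b, rfl⟩
        · exact hf₁ z
        · simp only [map_sub, hf₁, map_add]; abel
        · simp only [map_sub, map_smul, hf₁, h1 a b]; abel
      | zero => exact map_zero _
      | add u v _ _ hu hv => rw [Prod.fst_add, map_add, hu, hv]; rfl
      | smul a u _ hu => rw [Prod.smul_fst, map_smul, hu]; rfl
    intro m hm
    exact ((this _ hm).symm.trans (map_zero _)))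
  refine ⟨AddMonoidHom.mk' (fun a => f (e a)) fun a b => ?_, fun a b => ?_, fun a => ?_,
    fun z hz => ?_⟩
  · have := hf2 _ (hadd a b)
    simp only [map_sub] at this
    rw [sub_sub, sub_eq_zero] at this
    exact this
  · have := hf2 _ (hmul a b)
    simp only [map_sub, map_smul] at this
    rw [sub_sub, sub_eq_zero] at this
    exact this
  · exact (congrArg f (hDe a).symm).trans (hf1 _)
  · exact hf2 _ (Submodule.subset_span (Or.inl ⟨z, hz, rfl⟩))

end Zorn

end Pool.Agent.MP_97be6c_lc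

end
end

-- part MP_97be6c_lc.Transc
section

set_option autoImplicit false
set_option linter.unusedSectionVars false

open Polynomial

noncomputable section

namespace Pool.Agent.MP_97be6c_lc

theorem exists_transcendental {K ι : Type} [Field K] [Algebra ℝ K] {w : ι → K}
    (hw : AlgebraicIndependent ℝ w) (hι : ¬Countable ι) {Z : Set K} (hZ : Z.Countable) :
    ∃ i, Transcendental (Algebra.adjoin ℝ Z) (w i) := by
  by_contra hn
  push Not at hn
  have h1 : (AlgebraicIndependent.matroid ℝ K).Indep (Set.range w) := hw.to_subtype_range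
  have h2 : Set.range w ⊆ (AlgebraicIndependent.matroid ℝ K).closure Z := by
    rintro _ ⟨i, rfl⟩
    rw [AlgebraicIndependent.matroid_closure_eq]
    exact not_not.1 (hn i)
  have h3 := h1.cardinalMk_le_cRk_of_subset h2
  rw [Matroid.cRk_closure, Cardinal.mk_range_eq _ hw.injective] at h3
  exact hι (Cardinal.mk_le_aleph0_iff.1
    ((h3.trans (Matroid.cRk_le_cardinalMk _ _)).trans hZ.le_aleph0))

section

variable {F K : Type} [Field F] [Field K] [Algebra F K] {θF : F →+ F} {θ : K →+ K}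

theorem aeval_pext (hθ : IsDer θ) (hF : ∀ a, θ (algebraMap F K a) = algebraMap F K (θF a))
    {t : K} {g : F[X]} (ht : θ t = aeval t g) (p : F[X]) :
    θ (aeval t p) = aeval t (pext (cθ θF) g p) := by
  have := pext_eval₂ (d := cθ θF) (g := g) hθ (algebraMap F K) t 1
    (fun a => by rw [hF, cθ_apply, eval₂_C, one_mul]) (by rw [ht, one_mul, aeval_def]) p
  rwa [one_mul] at this

theorem exists_denom (hθ : IsDer θ) (hF : ∀ a, θ (algebraMap F K a) = algebraMap F K (θF a))
    {t w : K} {g α κ : F[X]} (ht : θ t = aeval t g) (hw : θ w = aeval t α + aeval t κ * w)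
    (hm : w ∈ IntermediateField.adjoin F {t}) :
    ∃ q : F[X], q.Monic ∧ q ∣ pext (cθ θF) g q ∧ ∃ p : F[X], aeval t q * w = aeval t p := by
  let J : Ideal F[X] :=
    { carrier := {q | ∃ p : F[X], aeval t q * w = aeval t p}
      add_mem' := by
        rintro a b ⟨p, hp⟩ ⟨p', hp'⟩
        exact ⟨p + p', by rw [map_add, map_add, add_mul, hp, hp']⟩
      zero_mem' := ⟨0, by simp⟩
      smul_mem' := by
        rintro a b ⟨p, hp⟩
        exact ⟨a * p, by rw [smul_eq_mul, map_mul, map_mul, mul_assoc, hp]⟩ }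
  have hJ : ∃ s ∈ J, s ≠ 0 := by
    obtain ⟨r, s, hrs⟩ := (IntermediateField.mem_adjoin_simple_iff F w).1 hm
    by_cases hs : aeval t s = 0
    · exact ⟨1, ⟨0, by simp [hrs, hs]⟩, one_ne_zero⟩
    · exact ⟨s, ⟨r, by rw [hrs]; field_simp⟩, fun h => hs (by rw [h, map_zero])⟩
  obtain ⟨s, hs, hs0⟩ := hJ
  let q₀ := Submodule.IsPrincipal.generator J
  have hq₀ : ∀ r, r ∈ J ↔ q₀ ∣ r := fun r => Submodule.IsPrincipal.mem_iff_generator_dvd J
  have hne : q₀ ≠ 0 := fun h => hs0 (zero_dvd_iff.1 (h ▸ (hq₀ s).1 hs))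
  have hq : q₀ * C q₀.leadingCoeff⁻¹ ∈ J := (hq₀ _).2 (dvd_mul_right _ _)
  obtain ⟨p, hp⟩ := hq
  refine ⟨q₀ * C q₀.leadingCoeff⁻¹, monic_mul_leadingCoeff_inv hne, ?_, p, hp⟩
  refine ((isUnit_C.2 (IsUnit.mk0 _ (inv_ne_zero (leadingCoeff_ne_zero.2 hne)))).mul_right_dvd).2
    ((hq₀ _).1 ?_)
  refine ⟨pext (cθ θF) g p - q₀ * C q₀.leadingCoeff⁻¹ * α - κ * p, ?_⟩
  have := congrArg θ hp
  rw [hθ, aeval_pext hθ hF ht, aeval_pext hθ hF ht, hw] at this
  rw [map_sub, map_sub, map_mul _ _ α, map_mul _ κ, ← hp, ← this]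
  ring

theorem lin_coeff (θF : F →+ F) (l : F) (p : F[X]) (i : ℕ) :
    (pext (cθ θF) (1 - C l * X) p).coeff i =
      θF (p.coeff i) + p.coeff (i + 1) * (i + 1) - l * (i * p.coeff i) := by
  rw [pext_cθ_coeff, mul_sub, mul_one, coeff_sub, coeff_derivative, mul_left_comm, coeff_C_mul]
  cases i with
  | zero => simp
  | succ i => rw [coeff_mul_X, coeff_derivative]; push_cast; ring

theorem eigen [CharZero F] (hθ : IsDer θF) {l : F} {q : F[X]} (hq : q.Monic)
    (hd : q ∣ pext (cθ θF) (1 - C l * X) q) (h0 : q.natDegree ≠ 0) :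
    ∃ u, θF u = 1 - l * u := by
  obtain ⟨e, he⟩ := Nat.exists_eq_succ_of_ne_zero h0
  have hT : Top q (e + 1) 1 := by
    have := Top.self q
    rwa [he, hq.leadingCoeff] at this
  have h1 := eq_leadingCoeff_mul_of_monic_of_dvd_of_natDegree_le hq hd
    (natDegree_le_iff_coeff_eq_zero.2 fun i hi => by
      rw [lin_coeff, hT.2 i (by omega), hT.2 _ (by omega)]; simp)
  generalize (pext (cθ θF) (1 - C l * X) q).leadingCoeff = c at h1
  have h2 := congrArg (fun r : F[X] => r.coeff (e + 1)) h1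
  have h3 := congrArg (fun r : F[X] => r.coeff e) h1
  simp only [lin_coeff, coeff_C_mul, hT.1, hT.2 _ (Nat.lt_succ_self _), hθ.one] at h2 h3
  have hne : ((e : F) + 1) ≠ 0 := by exact_mod_cast e.succ_ne_zero
  have h4 : θF ((e : F) + 1)⁻¹ = 0 := by
    rw [hθ.inv, map_add, hθ.natCast, hθ.one]; simp
  refine ⟨((e : F) + 1)⁻¹ * -q.coeff e, ?_⟩
  rw [hθ.const_mul h4, map_neg]
  push_cast at h2
  field_simp
  linear_combination -h3 + q.coeff e * h2

end

section

variable {K : Type} [Field K] [Algebra ℝ K] {θ : K →+ K} {x : K} {z : ℝ → K}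

/-- The setting for the independence of the `z b`. -/
structure ZSet (θ : K →+ K) (x : K) (z : ℝ → K) : Prop where
  der : IsDer θ
  θρ : ∀ r, θ (algebraMap ℝ K r) = 0
  θx : θ x = x
  Q : ∀ r : ℝ, r ≠ 0 → ∀ u, u ≠ 0 → θ u ≠ algebraMap ℝ K r * x * u
  θz : ∀ b, b ≠ 0 → θ (z b) = 1 - algebraMap ℝ K b * x * z b
  base : ∀ b, b ≠ 0 → ∀ (d : ℕ) (p : ℝ[X]), x ^ d * z b ≠ aeval x p

/-- The restriction of `θ` to a stable subfield. -/
def resθ (θ : K →+ K) (E : IntermediateField ℝ K) (h : ∀ a ∈ E, θ a ∈ E) : E →+ E where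
  toFun a := ⟨θ a, h a a.2⟩
  map_zero' := Subtype.ext (map_zero θ)
  map_add' a b := Subtype.ext (map_add θ (a : K) b)

namespace ZSet

theorem uniq (h : ZSet θ x z) {b : ℝ} (hb : b ≠ 0) {u : K}
    (hu : θ u = 1 - algebraMap ℝ K b * x * u) : u = z b := by
  by_contra hne
  refine h.Q (-b) (neg_ne_zero.2 hb) _ (sub_ne_zero.2 hne) ?_
  rw [map_sub, hu, h.θz b hb, map_neg]
  ring

theorem not_mem_base (h : ZSet θ x z) {b : ℝ} (hb : b ≠ 0) :
    z b ∉ IntermediateField.adjoin ℝ {x} := by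
  intro hm
  obtain ⟨q, hq, hd, p, hp⟩ := exists_denom (θF := 0) (g := X) (α := 1) (κ := -(C b * X)) h.der
    (fun a => by rw [h.θρ]; simp) (by rw [h.θx, aeval_X]) (by rw [h.θz b hb]; simp; ring) hm
  have hc : ∀ i, (pext (cθ (0 : ℝ →+ ℝ)) X q).coeff i = i * q.coeff i := by
    intro i
    rw [pext_cθ_coeff]
    cases i with
    | zero => simp
    | succ i => rw [coeff_mul_X, coeff_derivative]; simp; ring
  have h1 := eq_leadingCoeff_mul_of_monic_of_dvd_of_natDegree_le hq hd
    (natDegree_le_iff_coeff_eq_zero.2 fun i hi => by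
      rw [hc, coeff_eq_zero_of_natDegree_lt hi, mul_zero])
  generalize (pext (cθ (0 : ℝ →+ ℝ)) X q).leadingCoeff = c at h1
  have h2 : ∀ i : ℕ, (i : ℝ) * q.coeff i = c * q.coeff i := fun i => by
    rw [← hc, h1, coeff_C_mul]
  have h3 := h2 q.natDegree
  rw [hq.coeff_natDegree, mul_one, mul_one] at h3
  have : q = X ^ q.natDegree := by
    ext i
    rw [coeff_X_pow]
    split_ifs with hi
    · rw [hi, hq.coeff_natDegree]
    · have := h2 i
      rw [← h3] at this
      exact (mul_eq_mul_right_iff.1 this).resolve_left (by exact_mod_cast hi)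
  rw [this, map_pow, aeval_X] at hp
  exact h.base b hb _ _ hp

variable {E : IntermediateField ℝ K}

theorem not_eigen (h : ZSet θ x z) (hE : ∀ a ∈ E, θ a ∈ E) (hx : x ∈ E) {b : ℝ} (hb : b ≠ 0)
    (hz : z b ∉ E) {q : E[X]} (hq : q.Monic)
    (hd : q ∣ pext (cθ (resθ θ E hE)) (1 - C (algebraMap ℝ E b * ⟨x, hx⟩) * X) q) :
    q.natDegree = 0 := by
  have : CharZero E := algebraRat.charZero E
  by_contra h0
  obtain ⟨u, hu⟩ := eigen (θF := resθ θ E hE) (fun a b => Subtype.ext (h.der a b)) hq hd h0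
  exact hz (h.uniq hb (u := u) (congrArg Subtype.val hu) ▸ u.2)

theorem θz' (h : ZSet θ x z) (hx : x ∈ E) {b : ℝ} (hb : b ≠ 0) :
    θ (z b) = aeval (z b) (1 - C (algebraMap ℝ E b * ⟨x, hx⟩) * X : E[X]) := by
  rw [h.θz b hb, map_sub, map_one, map_mul, aeval_C, aeval_X]
  rfl

theorem transc (h : ZSet θ x z) (hE : ∀ a ∈ E, θ a ∈ E) (hx : x ∈ E) {b : ℝ} (hb : b ≠ 0)
    (hz : z b ∉ E) : Transcendental E (z b) := by
  intro ha
  have hi := ha.isIntegral
  refine (minpoly.natDegree_pos hi).ne' (h.not_eigen hE hx hb hz (minpoly.monic hi)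
    (minpoly.dvd _ _ ?_))
  rw [← aeval_pext (θF := resθ θ E hE) h.der (fun _ => rfl) (h.θz' hx hb), minpoly.aeval, map_zero]

theorem step (h : ZSet θ x z) (hE : ∀ a ∈ E, θ a ∈ E) (hx : x ∈ E) {b b' : ℝ}
    (hb : b ∈ Set.Ioo (1 : ℝ) 2) (hb' : b' ∈ Set.Ioo (1 : ℝ) 2) (hne : b ≠ b') (hz : z b ∉ E)
    (hz' : z b' ∉ E) : z b ∉ IntermediateField.adjoin E {z b'} := by
  intro hm
  have hb0 : b ≠ 0 := by linarith [hb.1]
  have hb0' : b' ≠ 0 := by linarith [hb'.1]
  obtain ⟨q, hq, hd, p, hp⟩ := exists_denom (θF := resθ θ E hE) (α := 1)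
    (κ := -C (algebraMap ℝ E b * ⟨x, hx⟩)) h.der (fun _ => rfl) (h.θz' hx hb0')
    (by rw [h.θz b hb0, map_one, map_neg, aeval_C, neg_mul, ← sub_eq_add_neg]; rfl) hm
  rw [hq.natDegree_eq_zero.1 (h.not_eigen hE hx hb0' hz' hq hd), map_one, one_mul] at hp
  have h1 : pext (cθ (resθ θ E hE)) (1 - C (algebraMap ℝ E b' * ⟨x, hx⟩) * X) p =
      1 - C (algebraMap ℝ E b * ⟨x, hx⟩) * p := by
    refine transcendental_iff_injective.1 (h.transc hE hx hb0' hz') ?_
    rw [← aeval_pext (θF := resθ θ E hE) h.der (fun _ => rfl) (h.θz' hx hb0'), ← hp, h.θz b hb0,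
      map_sub, map_one, map_mul, aeval_C, ← hp]
    rfl
  by_cases h0 : p.natDegree = 0
  · rw [eq_C_of_natDegree_eq_zero h0, aeval_C] at hp
    exact hz (hp ▸ (p.coeff 0).2)
  have hp0 : p ≠ 0 := fun h => h0 (by rw [h, natDegree_zero])
  have h2 := congrArg (fun r : E[X] => (r.coeff p.natDegree : K)) h1
  simp only [lin_coeff, coeff_sub, coeff_C_mul, coeff_one, if_neg h0,
    coeff_natDegree_succ_eq_zero] at h2
  refine h.Q (p.natDegree * b' - b) (fun h3 => ?_) (p.coeff p.natDegree)
    (fun h3 => leadingCoeff_ne_zero.2 hp0 (Subtype.ext h3)) ?_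
  · rcases (Nat.one_le_iff_ne_zero.2 h0).lt_or_eq with h4 | h4
    · have : (2 : ℝ) ≤ p.natDegree := by exact_mod_cast h4
      nlinarith [hb.2, hb'.1]
    · rw [← h4] at h3
      exact hne (by simpa [sub_eq_zero, eq_comm] using h3)
  · push_cast at h2
    rw [map_sub, map_mul, map_natCast]
    have e1 : ((resθ θ E hE (p.coeff p.natDegree) : E) : K) = θ (p.coeff p.natDegree) := rfl
    rw [e1] at h2
    linear_combination h2

theorem stable (h : ZSet θ x z) {s : Set K} (hs : ∀ a ∈ s, θ a ∈ IntermediateField.adjoin ℝ s) :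
    ∀ a ∈ IntermediateField.adjoin ℝ s, θ a ∈ IntermediateField.adjoin ℝ s := by
  intro a ha
  induction ha using IntermediateField.adjoin_induction with
  | mem a ha => exact hs a ha
  | algebraMap r => rw [h.θρ]; exact zero_mem _
  | add a b _ _ ha hb => rw [map_add]; exact add_mem ha hb
  | inv a ha ha' => rw [h.der.inv]; exact mul_mem (mul_mem (neg_mem ha') (inv_mem ha)) (inv_mem ha)
  | mul a b ha hb ha' hb' => rw [h.der]; exact add_mem (mul_mem ha hb') (mul_mem ha' hb)

theorem stable' (h : ZSet θ x z) (t : Set (Set.Ioo (1 : ℝ) 2)) :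
    ∀ a ∈ IntermediateField.adjoin ℝ (insert x ((fun b : Set.Ioo (1 : ℝ) 2 => z b) '' t)),
      θ a ∈ IntermediateField.adjoin ℝ (insert x ((fun b : Set.Ioo (1 : ℝ) 2 => z b) '' t)) := by
  have hx := IntermediateField.subset_adjoin ℝ _
    (Set.mem_insert x ((fun b : Set.Ioo (1 : ℝ) 2 => z b) '' t))
  refine h.stable fun a ha => ?_
  rcases ha with rfl | ⟨b, hb, rfl⟩
  · rw [h.θx]; exact hx
  · rw [h.θz b (by linarith [b.2.1])]
    exact sub_mem (one_mem _) (mul_mem (mul_mem (IntermediateField.algebraMap_mem _ _) hx)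
      (IntermediateField.subset_adjoin ℝ _ (Or.inr ⟨b, hb, rfl⟩)))

theorem not_mem (h : ZSet θ x z) {t : Set (Set.Ioo (1 : ℝ) 2)} (ht : t.Finite) :
    ∀ b, b ∉ t →
      z b ∉ IntermediateField.adjoin ℝ (insert x ((fun b : Set.Ioo (1 : ℝ) 2 => z b) '' t)) := by
  induction t, ht using Set.Finite.induction_on with
  | empty =>
    intro b _
    rw [Set.image_empty, insert_empty_eq]
    exact h.not_mem_base (by linarith [b.2.1])
  | @insert b' t hb' _ ih =>
    intro b hb
    rw [Set.mem_insert_iff, not_or] at hb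
    rw [Set.image_insert_eq, Set.insert_comm, ← Set.union_singleton,
      ← IntermediateField.adjoin_adjoin_left]
    exact h.step (h.stable' t) (IntermediateField.subset_adjoin ℝ _ (Set.mem_insert _ _)) b.2 b'.2
      (fun he => hb.1 (Subtype.ext he)) (ih b hb.2) (ih b' hb')

theorem indep (h : ZSet θ x z) : AlgebraicIndependent ℝ fun b : Set.Ioo (1 : ℝ) 2 => z b := by
  refine algebraicIndependent_of_finite_type' (algebraMap ℝ K).injective fun t ht _ b hb => ?_
  have := h.transc (h.stable' t) (IntermediateField.subset_adjoin ℝ _ (Set.mem_insert _ _))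
    (by linarith [b.2.1]) (h.not_mem ht b hb)
  rw [IntermediateField.transcendental_adjoin_iff] at this
  exact this.of_tower_top_of_subalgebra_le (Algebra.adjoin_mono (Set.subset_insert _ _))

end ZSet

end

end Pool.Agent.MP_97be6c_lc

end
end

-- part MP_97be6c_lc.Data
section

set_option autoImplicit false
set_option linter.unusedSectionVars false

open Polynomial HahnSeries

noncomputable section

namespace Pool.Agent.MP_97be6c_lc

/-- The series `∑ k! / b^(k+1) x^(-k-1)`. -/
def zz (b : ℝ) : ℝ⟦ℝ⟧ :=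
  ofPowerSeries ℝ ℝ (PowerSeries.mk fun n => if n = 0 then 0 else (n - 1).factorial / b ^ n)

theorem zz_nat (b : ℝ) (n : ℕ) :
    (zz b).coeff n = if n = 0 then 0 else ((n - 1).factorial : ℝ) / b ^ n := by
  rw [zz, ofPowerSeries_apply_coeff, PowerSeries.coeff_mk]

theorem zz_other (b : ℝ) {γ : ℝ} (h : ∀ n : ℕ, (n : ℝ) ≠ γ) : (zz b).coeff γ = 0 :=
  embDomain_of_notMem_range fun ⟨n, hn⟩ => h n hn

theorem zz_der {b : ℝ} (hb : b ≠ 0) : hder (0 : ℝ →+ ℝ) (AddMonoidHom.id ℝ) (zz b) =
    1 - HahnSeries.C b * single (-1) 1 * zz b := by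
  ext γ
  rw [hder_coeff, HahnSeries.coeff_sub, HahnSeries.C_apply, single_mul_single, coeff_single_mul,
    HahnSeries.coeff_one, zero_add, sub_neg_eq_add]
  simp only [AddMonoidHom.zero_apply, AddMonoidHom.id_apply, mul_one, zero_sub]
  by_cases h : ∃ n : ℕ, (n : ℝ) = γ
  · obtain ⟨n, rfl⟩ := h
    rw [← Nat.cast_succ, zz_nat, zz_nat]
    cases n with
    | zero => simp [hb]
    | succ n =>
      rw [if_neg n.succ_ne_zero, if_neg (Nat.succ_ne_zero _),
        if_neg (Nat.cast_ne_zero.2 n.succ_ne_zero)]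
      simp only [Nat.add_sub_cancel, Nat.succ_eq_add_one, Nat.factorial_succ]
      push_cast
      field_simp
      ring
  · push Not at h
    rw [zz_other b h, if_neg (fun h0 => h 0 (by simp [h0]))]
    have : (zz b).coeff (γ + 1) = 0 := by
      by_cases h1 : γ + 1 = 0
      · rw [h1]
        simpa using zz_nat b 0
      · refine zz_other b fun n hn => ?_
        cases n with
        | zero => exact h1 (by simpa using hn.symm)
        | succ n => exact h n (by simpa using hn)
    simp [this]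

theorem zz_base {b : ℝ} (hb : b ≠ 0) (d : ℕ) (p : ℝ[X]) :
    (single (-1) 1 : ℝ⟦ℝ⟧) ^ d * zz b ≠ eval₂ HahnSeries.C (single (-1) 1) p := by
  intro h
  have h1 := congrArg (fun f : ℝ⟦ℝ⟧ => f.coeff 1) h
  have h2 : (eval₂ HahnSeries.C (single (-1) 1 : ℝ⟦ℝ⟧) p).coeff 1 = 0 := by
    rw [eval₂_eq_sum, sum_def, HahnSeries.coeff_sum]
    refine Finset.sum_eq_zero fun i _ => ?_
    rw [single_pow, HahnSeries.C_apply, single_mul_single, coeff_single_of_ne]
    have : (0 : ℝ) ≤ i := Nat.cast_nonneg i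
    simp only [smul_neg, nsmul_eq_mul, mul_one, zero_add]
    linarith
  have h3 : (1 : ℝ) - d • (-1 : ℝ) = (d + 1 : ℕ) := by simp [add_comm]
  rw [h2, single_pow, coeff_single_mul, h3, zz_nat, if_neg d.succ_ne_zero] at h1
  refine absurd h1 ?_
  positivity

instance algK (m : ℕ) : Algebra ℝ (stage m).K := (rho m).toAlgebra

instance charK (m : ℕ) : CharZero (stage m).K := inferInstance

/-- The series `zz b` at level zero. -/
def zK (b : ℝ) : (stage 0).K := toLex (zz b)

theorem timesX_coe (r : ℝ) : ((timesX r : base.A) : base.K) = incl ℝ ℝ r * xBase := by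
  have : (single (-1 : ℝ) r : ℝ⟦ℝ⟧) = single 0 r * single (-1) 1 := by
    rw [single_mul_single]; simp
  exact this

theorem θ_xs : ∀ m : ℕ, (stage m).θ (xs m) = xs m
  | 0 => by
    have : hder (0 : ℝ →+ ℝ) (AddMonoidHom.id ℝ) (single (-1 : ℝ) 1) = single (-1 : ℝ) 1 := by
      rw [hder_single]; simp
    exact this
  | m + 1 => (θ_inc m _).trans (congrArg (inc m) (θ_xs m))

theorem xs_ne_zero : ∀ m : ℕ, xs m ≠ 0
  | 0 => single_ne_zero one_ne_zero
  | m + 1 => (_root_.map_ne_zero (inc m)).2 (xs_ne_zero m)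

theorem zset : ZSet (stage 0).θ (xs 0) zK where
  der := (good 0).der
  θρ := (good 0).θρ
  θx := θ_xs 0
  Q r hr u hu h := good_base.Q (timesX r)
    (fun h0 => hr (timesX_strictMono.injective (h0.trans (map_zero _).symm))) u hu
    (h.trans (by rw [base_θ_timesX, mul_comm xBase]; rfl))
  θz b hb := zz_der hb
  base b hb d p := zz_base hb d p

theorem up_rho : ∀ (m : ℕ) (r : ℝ), (up m).φ (rho m r) = rho (m + 1) r
  | 0, r => hmap_C (incl ℝ ℝ) timesX timesX_strictMono r
  | m + 1, r => (up_inc m _).trans (congrArg (inc (m + 1)) (up_rho m r))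

/-- The iterated upward shift. -/
def upN : (n : ℕ) → (stage 0).K →+* (stage n).K
  | 0 => RingHom.id _
  | n + 1 => (up n).φ.comp (upN n)

theorem upN_rho : ∀ (n : ℕ) (r : ℝ), upN n (rho 0 r) = rho n r
  | 0, _ => rfl
  | n + 1, r => (congrArg (up n).φ (upN_rho n r)).trans (up_rho n r)

theorem indep_upN (n : ℕ) :
    AlgebraicIndependent ℝ fun b : Set.Ioo (1 : ℝ) 2 => upN n (zK b) :=
  zset.indep.map' (f := { upN n with commutes' := upN_rho n }) (upN n).injective

/-- The factor in the chain rule for the iterated shift. -/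
def nuK : (n : ℕ) → (stage n).K
  | 0 => 1
  | n + 1 => xs (n + 1) * (up n).φ (nuK n)

theorem θ_upN : ∀ (n : ℕ) (f : (stage 0).K),
    (stage n).θ (upN n f) = nuK n * upN n ((stage 0).θ f)
  | 0, _ => (one_mul _).symm
  | n + 1, f => by
    rw [upN, RingHom.comp_apply, θ_up, θ_upN n f, map_mul, nuK, mul_assoc, RingHom.comp_apply]

theorem nuK_ne_zero : ∀ n : ℕ, nuK n ≠ 0
  | 0 => one_ne_zero
  | n + 1 => mul_ne_zero (xs_ne_zero _) ((_root_.map_ne_zero _).2 (nuK_ne_zero n))

/-- The exponent `b x`, shifted `n` times. -/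
def bet (b : ℝ) : (n : ℕ) → (stage n).A
  | 0 => timesX b
  | n + 1 => (up n).onA (bet b n)

theorem onA_mono (n : ℕ) : StrictMono (up n).onA := fun _ _ h => (up n).mono h

theorem bet_pos {b : ℝ} (hb : 0 < b) : ∀ n, 0 < bet b n
  | 0 => (map_zero timesX).symm.trans_lt (timesX_strictMono hb)
  | n + 1 => (map_zero (up n).onA).symm.trans_lt (onA_mono n (bet_pos hb n))

theorem bet_coe (b : ℝ) : ∀ n, (bet b n : (stage n).K) = rho n b * upN n (xs 0)
  | 0 => timesX_coe b
  | n + 1 => by
    have : (bet b (n + 1) : (stage (n + 1)).K) = (up n).φ (bet b n) := rfl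
    rw [this, bet_coe b n, map_mul, up_rho]; rfl

theorem θ_bet (b : ℝ) (n : ℕ) :
    (stage n).θ (bet b n) = rho n b * (nuK n * upN n (xs 0)) := by
  rw [bet_coe, (good n).der.const_mul ((good n).θρ b), θ_upN, θ_xs]

theorem θ_bet_succ (b : ℝ) (n : ℕ) :
    (stage (n + 1)).θ (bet b (n + 1)) = xs (n + 1) * (up n).φ ((stage n).θ (bet b n)) :=
  θ_up n _

theorem θ_zK {b : ℝ} (hb : b ≠ 0) (n : ℕ) :
    (stage n).θ (upN n (zK b)) = nuK n - (stage n).θ (bet b n) * upN n (zK b) := by
  rw [θ_upN, zset.θz b hb, θ_bet, map_sub, map_one, map_mul, map_mul]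
  have : upN n (algebraMap ℝ _ b) = rho n b := upN_rho n b
  rw [this]
  ring

theorem ker_zero {S : Stage} {ρ : ℝ →+* S.K} (h : Good S ρ) {β : S.A} (hβ : β ≠ 0)
    {p : S.K[X]} (hp : th S.θ p = Polynomial.C (S.θ β) * p) : p = 0 := by
  have := lc_eq h.der (p := p) one_ne_zero (l := S.θ β) (by rw [h.der.th.one, hp]; ring)
  rw [Polynomial.leadingCoeff_one, inv_one, mul_one] at this
  by_contra hne
  exact h.Q β hβ _ (leadingCoeff_ne_zero.2 hne) this

/-- A derivation of level `n` that commutes with `θ` after multiplication by `exp (-β)`. -/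
structure Dat (b : ℝ) (n : ℕ) where
  δ : (stage n).K →+ (stage n).K[X]
  der : IsDerC δ
  comm : ∀ f, δ ((stage n).θ f) =
    th (stage n).θ (δ f) - Polynomial.C ((stage n).θ (bet b n)) * δ f
  hβ : δ (bet b n) = 0

/-- The map `K n [X] → K (n + 1)` that extends the upward shift and sends `X = log x` to `x`. -/
def psi (n : ℕ) : (stage n).K[X] →+* (stage (n + 1)).K := eval₂RingHom (up n).φ (xs (n + 1))

theorem psi_C (n : ℕ) (a : (stage n).K) : psi n (Polynomial.C a) = (up n).φ a := eval₂_C _ _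

theorem psi_X (n : ℕ) : psi n X = xs (n + 1) := eval₂_X _ _

theorem θ_psi (n : ℕ) (p : (stage n).K[X]) :
    (stage (n + 1)).θ (psi n p) = xs (n + 1) * psi n (th (stage n).θ p) :=
  pext_eval₂ (good (n + 1)).der (up n).φ _ _ (fun a => by rw [θ_up, cθ_apply, eval₂_C])
    (by rw [θ_xs, eval₂_one, mul_one]) p

/-- Compatibility of the data at consecutive depths. -/
def Link {b : ℝ} {n : ℕ} (d : Dat b n) (d' : Dat b (n + 1)) : Prop :=
  ∀ p, d'.δ (psi n p) = Polynomial.C (psi n (pext d.δ 0 p))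

theorem isDerC_iff {k : Type} [CommRing k] {d : k →+ k[X]} : IsDerC d ↔ IsDerM d := by
  simp only [IsDerC, IsDerM, smul_eq_C_mul]

theorem Dat.step {b : ℝ} (hb : 0 < b) {n : ℕ} (d : Dat b n) : ∃ d', Link d d' := by
  have hG := good (n + 1)
  have hx := xs_ne_zero (n + 1)
  set x := xs (n + 1) with hxd
  set θ := (stage (n + 1)).θ with hθd
  set l := (up n).φ ((stage n).θ (bet b n)) with hl
  let D : (stage (n + 1)).K →+ (stage (n + 1)).K := (AddMonoidHom.mulLeft x⁻¹).comp θ
  have hD : ∀ a, D a = x⁻¹ * θ a := fun _ => rfl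
  have hDer : IsDer D := fun a a' => by rw [hD, hD, hD, hG.der]; ring
  let N : (stage (n + 1)).K[X] →+ (stage (n + 1)).K[X] :=
    (AddMonoidHom.mulLeft (Polynomial.C x⁻¹)).comp (th θ) - AddMonoidHom.mulLeft (Polynomial.C l)
  have hN : ∀ m, N m = Polynomial.C x⁻¹ * th θ m - Polynomial.C l * m := fun _ => rfl
  have hxx : Polynomial.C x * Polynomial.C x⁻¹ = 1 := by
    rw [← map_mul, mul_inv_cancel₀ hx, map_one]
  have hconn : Conn D N := fun a m => by
    have hth : IsDer (th θ) := hG.der.th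
    simp only [hN, hD, smul_eq_C_mul, hth _ _, th_C, map_mul]
    ring
  have hv : Dv _ N := (dv_stage (n + 1)).twist hG.der.conn_th (c := x⁻¹) (l := -l)
    (inv_ne_zero hx) fun m => by rw [hN, neg_smul, smul_eq_C_mul, smul_eq_C_mul, sub_eq_add_neg]
  obtain ⟨δ₁, h1, h2⟩ := extend_plain (up n).φ (up n).φ.injective
    (((Polynomial.C.comp (psi n)).toAddMonoidHom).comp d.δ) (fun a a' => by
      change Polynomial.C (psi n (d.δ (a * a'))) =
        (up n).φ a • Polynomial.C (psi n (d.δ a')) + (up n).φ a' • Polynomial.C (psi n (d.δ a))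
      simp only [d.der a a', map_add, map_mul, psi_C, smul_eq_C_mul])
  replace h2 : ∀ a, δ₁ ((up n).φ a) = Polynomial.C (psi n (d.δ a)) := h2
  have hDup : ∀ a, D ((up n).φ a) = (up n).φ ((stage n).θ a) := fun a => by
    rw [hD, θ_up, ← mul_assoc, inv_mul_cancel₀ hx, one_mul]
  obtain ⟨δ, h3, h4, h5⟩ := extend_comm hDer hconn hv δ₁ h1 (Set.range (up n).φ)
    (by rintro _ ⟨a, rfl⟩; exact ⟨_, (hDup a).symm⟩) (by
      rintro _ ⟨a, rfl⟩
      rw [hDup, h2, h2, d.comm, hN, th_C, θ_psi, map_sub, map_mul, psi_C, ← map_mul, ← mul_assoc,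
        inv_mul_cancel₀ hx, one_mul, map_sub, map_mul])
  have h6 : ∀ a, δ ((up n).φ a) = Polynomial.C (psi n (d.δ a)) := fun a =>
    (h5 _ ⟨a, rfl⟩).trans (h2 a)
  have h3' := isDerC_iff.2 h3
  have h7 : δ x = 0 := by
    refine ker_zero hG (bet_pos hb (n + 1)).ne' ?_
    have := h4 x
    rw [hD, θ_xs, inv_mul_cancel₀ hx, h3'.one, hN] at this
    rw [θ_bet_succ, map_mul]
    linear_combination -Polynomial.C x * this - th θ (δ x) * hxx
  refine ⟨⟨δ, h3', fun f => ?_, ?_⟩, fun p => ?_⟩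
  · have e : θ f = x * D f := by rw [hD, ← mul_assoc, mul_inv_cancel₀ hx, one_mul]
    rw [e, h3', h7, h4, hN, θ_bet_succ, map_mul]
    linear_combination th θ (δ f) * hxx
  · exact (h6 (bet b n)).trans (by rw [d.hβ, map_zero, map_zero])
  · refine der_ext (Polynomial.C.comp (psi n)) (δ.comp (psi n).toAddMonoidHom)
      ((Polynomial.C.comp (psi n)).toAddMonoidHom.comp (pext d.δ 0)) (fun p q => ?_)
      (fun p q => ?_) (fun a => ?_) ?_ p
    · exact (congrArg δ (map_mul (psi n) _ _)).trans (h3' _ _)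
    · change Polynomial.C (psi n (pext d.δ 0 (p * q))) =
        Polynomial.C (psi n p) * Polynomial.C (psi n (pext d.δ 0 q)) +
          Polynomial.C (psi n q) * Polynomial.C (psi n (pext d.δ 0 p))
      rw [d.der.pext 0 p q]
      simp only [map_add, map_mul]
      ring
    · change δ (psi n (Polynomial.C a)) = Polynomial.C (psi n (pext d.δ 0 (Polynomial.C a)))
      rw [psi_C, pext_C, h6]
    · change δ (psi n X) = Polynomial.C (psi n (pext d.δ 0 X))
      rw [psi_X, pext_X d.der, h7, map_zero, map_zero]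

theorem Dat.start (n : ℕ) {Z : Set (stage n).K} (hZ : Z.Countable) :
    ∃ b ∈ Set.Ioo (1 : ℝ) 2, ∃ d : Dat b n, d.δ (upN n (zK b)) = 1 ∧ ∀ a ∈ Z, d.δ a = 0 := by
  have hG := good n
  set θ := (stage n).θ with hθd
  let Z₀ : Set (stage n).K := ⋃ k : ℕ, θ^[k] '' insert (nuK n) (insert (upN n (xs 0)) Z)
  have hZ₀ : Z₀.Countable := Set.countable_iUnion fun k => ((hZ.insert _).insert _).image _
  have hsub : ∀ a ∈ insert (nuK n) (insert (upN n (xs 0)) Z), a ∈ Algebra.adjoin ℝ Z₀ :=
    fun a ha => Algebra.subset_adjoin (Set.mem_iUnion.2 ⟨0, a, ha, rfl⟩)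
  have hst : ∀ a ∈ Algebra.adjoin ℝ Z₀, θ a ∈ Algebra.adjoin ℝ Z₀ := by
    intro a ha
    induction ha using Algebra.adjoin_induction with
    | mem a ha =>
      obtain ⟨k, c, hc, rfl⟩ := Set.mem_iUnion.1 ha
      exact Algebra.subset_adjoin
        (Set.mem_iUnion.2 ⟨k + 1, c, hc, Function.iterate_succ_apply' _ _ _⟩)
    | algebraMap r => exact (hG.θρ r).symm ▸ zero_mem _
    | add a b _ _ ha hb => rw [map_add]; exact add_mem ha hb
    | mul a b ha hb ha' hb' => rw [hG.der]; exact add_mem (mul_mem ha hb') (mul_mem ha' hb)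
  obtain ⟨b, hb⟩ := exists_transcendental (indep_upN n) (by
    rw [← Cardinal.mk_le_aleph0_iff, Cardinal.mk_Ioo_real one_lt_two, not_le]
    exact Cardinal.aleph0_lt_continuum) hZ₀
  have hb0 : (0 : ℝ) < b := by linarith [b.2.1]
  set F := Algebra.adjoin ℝ Z₀
  set z := upN n (zK b) with hz
  have : CharZero F := algebraRat.charZero F
  let φ : F[X] →+* (stage n).K := (aeval z : F[X] →ₐ[F] (stage n).K).toRingHom
  obtain ⟨δ₁, h1, h2⟩ := extend_plain φ (transcendental_iff_injective.1 hb)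
    ((Polynomial.C.comp φ).toAddMonoidHom.comp dv) (fun p q => by
      change Polynomial.C (φ (dv (p * q))) =
        φ p • Polynomial.C (φ (dv q)) + φ q • Polynomial.C (φ (dv p))
      rw [isDer_dv]
      simp only [map_add, map_mul, smul_eq_C_mul]
      ring)
  replace h2 : ∀ p, δ₁ (φ p) = Polynomial.C (φ (derivative p)) := h2
  have hF : ∀ a ∈ F, δ₁ a = 0 := fun a ha => by
    have := h2 (Polynomial.C ⟨a, ha⟩)
    rwa [derivative_C, map_zero, map_zero, show φ (Polynomial.C ⟨a, ha⟩) = a from aeval_C _ _]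
      at this
  have hz1 : δ₁ z = 1 := by
    have := h2 X
    rwa [derivative_X, map_one, map_one, show φ X = z from aeval_X _] at this
  have hν : nuK n ∈ F := hsub _ (Or.inl rfl)
  have hβ : (bet b n : (stage n).K) ∈ F := by
    rw [bet_coe]
    exact mul_mem (F.algebraMap_mem b) (hsub _ (Or.inr (Or.inl rfl)))
  let N : (stage n).K[X] →+ (stage n).K[X] :=
    th θ - AddMonoidHom.mulLeft (Polynomial.C (θ (bet b n)))
  have hN : ∀ m, N m = th θ m - Polynomial.C (θ (bet b n)) * m := fun _ => rfl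
  have hconn : Conn θ N := fun a m => by
    have hth : IsDer (th θ) := hG.der.th
    simp only [hN, smul_eq_C_mul, hth _ _, th_C]
    ring
  have hv : Dv _ N := (dv_stage n).twist hG.der.conn_th (c := 1) (l := -θ (bet b n))
    one_ne_zero fun m => by rw [hN, neg_smul, one_smul, smul_eq_C_mul, sub_eq_add_neg]
  have h1' := isDerC_iff.2 h1
  have key : ∀ p, θ (φ p) ∈ Set.range φ ∧ δ₁ (θ (φ p)) = N (δ₁ (φ p)) := by
    intro p
    induction p using Polynomial.induction_on with
    | C a =>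
      rw [show φ (Polynomial.C a) = a from aeval_C _ _]
      exact ⟨⟨Polynomial.C ⟨_, hst a a.2⟩, aeval_C _ _⟩, by
        rw [hF _ (hst a a.2), hF _ a.2, map_zero]⟩
    | add p q hp hq =>
      rw [map_add, map_add, map_add, map_add, map_add, hp.2, hq.2]
      exact ⟨φ.range.add_mem hp.1 hq.1, rfl⟩
    | monomial i a ih =>
      have hθz : θ z = nuK n - θ (bet b n) * z := θ_zK hb0.ne' n
      have hX : φ X = z := aeval_X _
      rw [pow_succ, ← mul_assoc, map_mul, hX]
      generalize Polynomial.C a * X ^ i = q at ih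
      constructor
      · rw [hG.der, hθz]
        exact φ.range.add_mem (φ.range.mul_mem ⟨q, rfl⟩ (φ.range.sub_mem
          ⟨Polynomial.C ⟨_, hν⟩, aeval_C _ _⟩ (φ.range.mul_mem
            ⟨Polynomial.C ⟨_, hst _ hβ⟩, aeval_C _ _⟩ ⟨X, hX⟩))) (φ.range.mul_mem ih.1 ⟨X, hX⟩)
      · have e : δ₁ (θ z) = N (δ₁ z) := by
          rw [hθz, map_sub, h1', hF _ hν, hF _ (hst _ hβ), hz1, hN, hG.der.th.one]
          ring
        rw [hG.der, map_add, h1, h1, h1, map_add, hconn, hconn, ih.2, e]
        abel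
  obtain ⟨δ, h3, h4, h5⟩ := extend_comm hG.der hconn hv δ₁ h1 (Set.range φ)
    (by rintro _ ⟨p, rfl⟩; exact (key p).1) (by rintro _ ⟨p, rfl⟩; exact (key p).2)
  have h6 : ∀ a ∈ F, δ a = 0 := fun a ha =>
    (h5 a ⟨Polynomial.C ⟨a, ha⟩, aeval_C _ _⟩).trans (hF a ha)
  exact ⟨b, b.2, ⟨δ, isDerC_iff.2 h3, h4, h6 _ hβ⟩, (h5 z ⟨X, aeval_X _⟩).trans hz1,
    fun a ha => h6 a (hsub a (Or.inr (Or.inr ha)))⟩

end Pool.Agent.MP_97be6c_lc

end
end

-- part MP_97be6c_lc.Sigma
section

set_option autoImplicit false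
set_option linter.unusedSectionVars false

open HahnSeries

noncomputable section

namespace Pool.Agent.MP_97be6c_lc

theorem finsum_antidiag {M : Type} [AddCommMonoid M] (a : ℕ × ℕ → M)
    (h : (Function.support a).Finite) :
    ∑ᶠ p, a p = ∑ᶠ n, ∑ p ∈ Finset.HasAntidiagonal.antidiagonal n, a p := by
  obtain ⟨N, hN⟩ := (h.image fun p => p.1 + p.2).bddAbove
  have hN' : ∀ p, a p ≠ 0 → p.1 + p.2 < N + 1 := fun p hp =>
    Nat.lt_succ_of_le (hN ⟨p, hp, rfl⟩)
  rw [finsum_eq_sum_of_support_subset a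
      (s := (Finset.range (N + 1)).biUnion Finset.HasAntidiagonal.antidiagonal) (fun p hp => by
        simp only [Finset.coe_biUnion, Finset.coe_range, Set.mem_iUnion]
        exact ⟨_, hN' p hp, Finset.HasAntidiagonal.mem_antidiagonal.2 rfl⟩),
    finsum_eq_sum_of_support_subset _ (s := Finset.range (N + 1)) (fun n hn => by
      obtain ⟨p, hp, hne⟩ := Finset.exists_ne_zero_of_sum_ne_zero hn
      rw [Finset.coe_range, ← Finset.HasAntidiagonal.mem_antidiagonal.1 hp]
      exact hN' p hne),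
    Finset.sum_biUnion]
  intro m _ n _ hmn
  rw [Function.onFun, Finset.disjoint_left]
  intro p h1 h2
  exact hmn ((Finset.HasAntidiagonal.mem_antidiagonal.1 h1).symm.trans (Finset.HasAntidiagonal.mem_antidiagonal.1 h2))

theorem IsDer.iter_mul {R : Type} [CommRing R] {D : R →+ R} (h : IsDer D) (n : ℕ) (a b : R) :
    D^[n] (a * b) =
      ∑ ij ∈ Finset.HasAntidiagonal.antidiagonal n, n.choose ij.1 • (D^[ij.1] a * D^[ij.2] b) := by
  induction n with
  | zero => simp
  | succ n ih =>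
    rw [Finset.sum_antidiagonal_choose_succ_nsmul (fun i j => D^[i] a * D^[j] b) n]
    simp only [Function.iterate_succ_apply', ih, map_sum, map_nsmul, h _ _, smul_add,
      Finset.sum_add_distrib, add_right_inj]
    refine Finset.sum_congr rfl fun ⟨i, j⟩ hij => ?_
    rw [n.choose_symm_of_eq_add (Finset.HasAntidiagonal.mem_antidiagonal.1 hij).symm]

section

variable {Λ Λ' : Type} [AddCommGroup Λ] [LinearOrder Λ] [IsOrderedAddMonoid Λ]
  [AddCommGroup Λ'] [LinearOrder Λ'] [IsOrderedAddMonoid Λ']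
  {R R' : Type} [CommRing R] [Algebra ℚ R] [CommRing R'] [Algebra ℚ R']

/-- Strongly additive maps. -/
def Strong (Φ : R⟦Λ⟧ →+ R'⟦Λ'⟧) : Prop :=
  ∀ (s : SummableFamily Λ R ℕ) (γ : Λ'), (Φ s.hsum).coeff γ = ∑ᶠ i, (Φ (s i)).coeff γ

theorem strong_hder (θ : R →+ R) (lam : Λ →+ R) : Strong (hder θ lam) := hder_hsum θ lam

theorem strong_hmap (φ : R →+* R') (τ : Λ →+ Λ') (hτ : StrictMono τ) :
    Strong (hmap φ τ hτ).toAddMonoidHom := by
  intro s γ
  change (hmap φ τ hτ s.hsum).coeff γ = ∑ᶠ i, (hmap φ τ hτ (s i)).coeff γ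
  by_cases h : γ ∈ Set.range τ
  · obtain ⟨γ, rfl⟩ := h
    simp only [hmap_coeff, SummableFamily.coeff_hsum]
    exact φ.toAddMonoidHom.map_finsum (s.finite_co_support γ)
  · simp only [hmap_coeff_of_notMem _ _ _ _ h, finsum_zero]

/-- A derivation that shifts supports by `β > 0`. -/
structure Shift (D : R⟦Λ⟧ →+ R⟦Λ⟧) (β : Λ) : Prop where
  der : IsDer D
  pos : 0 < β
  supp : ∀ f γ, (D f).coeff γ ≠ 0 → f.coeff (γ - β) ≠ 0

namespace Shift

variable {D : R⟦Λ⟧ →+ R⟦Λ⟧} {β : Λ} {D' : R'⟦Λ'⟧ →+ R'⟦Λ'⟧} {β' : Λ'}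

theorem iter (h : Shift D β) (n : ℕ) (f : R⟦Λ⟧) (γ : Λ) (hne : (D^[n] f).coeff γ ≠ 0) :
    f.coeff (γ - n • β) ≠ 0 := by
  induction n generalizing γ with
  | zero => simpa using hne
  | succ n ih =>
    rw [Function.iterate_succ_apply'] at hne
    have := ih _ (h.supp _ _ hne)
    rwa [sub_sub, ← succ_nsmul'] at this

theorem mono (h : Shift D β) : StrictMono fun n : ℕ => n • β :=
  fun _ _ hab => nsmul_lt_nsmul_left h.pos hab

theorem pwo (h : Shift D β) : (Set.range fun n : ℕ => n • β).IsPWO := by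
  rw [← Set.image_univ]
  exact (Set.isPWO_of_wellQuasiOrderedLE _).image_of_monotone h.mono.monotone

theorem term (h : Shift D β) {n : ℕ} {f : R⟦Λ⟧} {γ : Λ}
    (hne : (((n.factorial : ℚ)⁻¹ • D^[n] f : R⟦Λ⟧)).coeff γ ≠ 0) : f.coeff (γ - n • β) ≠ 0 :=
  h.iter n f γ fun h0 => hne (by rw [coeff_smul, h0, smul_zero])

open scoped Pointwise in
/-- The family of the `D^n f / n!`. -/
def fam (h : Shift D β) (f : R⟦Λ⟧) : SummableFamily Λ R ℕ where
  toFun n := (n.factorial : ℚ)⁻¹ • D^[n] f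
  isPWO_iUnion_support' := (h.pwo.add f.isPWO_support).mono fun γ hγ => by
    obtain ⟨n, hn⟩ := Set.mem_iUnion.1 hγ
    exact ⟨n • β, ⟨n, rfl⟩, γ - n • β, h.term hn, add_sub_cancel _ _⟩
  finite_co_support' γ :=
    ((Set.AddAntidiagonal.finite_of_isPWO h.pwo f.isPWO_support γ).preimage
      (f := fun n : ℕ => (n • β, γ - n • β))
      fun _ _ _ _ hab => h.mono.injective (congrArg Prod.fst hab)).subset
      fun n hn => ⟨⟨n, rfl⟩, h.term hn, add_sub_cancel _ _⟩

theorem fam_apply (h : Shift D β) (f : R⟦Λ⟧) (n : ℕ) :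
    h.fam f n = (n.factorial : ℚ)⁻¹ • D^[n] f := rfl

theorem hsum_eq (h : Shift D β) {f : R⟦Λ⟧} (hf : D (D f) = 0) : (h.fam f).hsum = f + D f := by
  ext γ
  rw [SummableFamily.coeff_hsum, finsum_eq_sum_of_support_subset _ (s := Finset.range 2),
    Finset.sum_range_succ, Finset.sum_range_succ]
  · simp [fam_apply]
  · intro n hn
    by_contra hlt
    obtain ⟨m, rfl⟩ : ∃ m, n = m + 2 := ⟨n - 2, by simp at hlt; omega⟩
    apply hn
    have : D^[m + 2] f = 0 := by
      rw [Function.iterate_add_apply]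
      exact (congrArg D^[m] hf).trans (Function.iterate_fixed (map_zero D) m)
    simp [fam_apply, this]

/-- The exponential of `D`. -/
def σ (h : Shift D β) : R⟦Λ⟧ →+* R⟦Λ⟧ where
  toFun f := (h.fam f).hsum
  map_one' := by rw [h.hsum_eq (by rw [h.der.one, map_zero]), h.der.one, add_zero]
  map_zero' := by rw [h.hsum_eq (by rw [map_zero, map_zero]), map_zero, add_zero]
  map_add' f g := by
    rw [← SummableFamily.hsum_add]
    congr 1
    ext n γ
    simp only [fam_apply, SummableFamily.add_apply, iterate_map_add, smul_add]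
  map_mul' f g := by
    rw [← SummableFamily.hsum_mul]
    ext γ
    rw [SummableFamily.coeff_hsum, SummableFamily.coeff_hsum,
      finsum_antidiag _ (((h.fam f).mul (h.fam g)).finite_co_support γ)]
    refine finsum_congr fun n => ?_
    rw [← HahnSeries.coeff_sum, fam_apply, h.der.iter_mul, Finset.smul_sum]
    congr 1
    refine Finset.sum_congr rfl fun ⟨i, j⟩ hij => ?_
    change _ = h.fam f i * h.fam g j
    rw [fam_apply, fam_apply, smul_mul_smul_comm, ← Nat.cast_smul_eq_nsmul ℚ, smul_smul,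
      ← Finset.HasAntidiagonal.mem_antidiagonal.1 hij, Nat.cast_add_choose]
    congr 1
    field_simp

theorem σ_coeff (h : Shift D β) (f : R⟦Λ⟧) (γ : Λ) :
    (h.σ f).coeff γ = ∑ᶠ n, (h.fam f n).coeff γ := rfl

theorem σ_eq (h : Shift D β) {f : R⟦Λ⟧} (hf : D (D f) = 0) : h.σ f = f + D f := h.hsum_eq hf

theorem σ_fix (h : Shift D β) {f : R⟦Λ⟧} (hf : D f = 0) : h.σ f = f := by
  rw [h.σ_eq (by rw [hf, map_zero]), hf, add_zero]

theorem nat (h : Shift D β) (h' : Shift D' β') {Φ : R⟦Λ⟧ →+ R'⟦Λ'⟧} (hΦ : Strong Φ)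
    (hc : ∀ f, Φ (D f) = D' (Φ f)) (f : R⟦Λ⟧) : Φ (h.σ f) = h'.σ (Φ f) := by
  ext γ
  refine (hΦ (h.fam f) γ).trans (finsum_congr fun n => ?_)
  rw [fam_apply, fam_apply, map_rat_smul, Function.Semiconj.iterate_right (f := Φ) hc n f]

theorem lead (h : Shift D β) {f : R⟦Λ⟧} {γ : Λ} {c : R} (hf : Lead f γ c) :
    Lead (h.σ f) γ c := by
  have key : ∀ α, α ≤ γ → (h.σ f).coeff α = f.coeff α := by
    intro α hα
    rw [σ_coeff, finsum_eq_single _ 0]
    · simp [fam_apply]
    · intro n hn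
      by_contra hne
      exact h.term hne (hf.2 _ ((sub_lt_self _ (nsmul_pos h.pos hn)).trans_le hα))
  exact ⟨(key γ le_rfl).trans hf.1, fun α hα => (key α hα.le).trans (hf.2 α hα)⟩

theorem bijective (h : Shift D β) : Function.Bijective h.σ := by
  constructor
  · rw [injective_iff_map_eq_zero]
    intro f hf
    by_contra hne
    obtain ⟨γ, c, hc, hl⟩ := exists_lead hne
    exact hc ((h.lead hl).1.symm.trans (by rw [hf, coeff_zero]))
  · refine solve h.σ.toAddMonoidHom h.pwo ?_ (fun g γ hγ => ?_)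
      fun γ c => ⟨c, (h.lead (Lead.single γ c)).1⟩
    · rintro _ ⟨n, rfl⟩
      exact nsmul_nonneg h.pos.le n
    · obtain ⟨n, hn⟩ : ∃ n, (h.fam g n).coeff γ ≠ 0 := by
        by_contra hall
        push Not at hall
        exact hγ (finsum_eq_zero_of_forall_eq_zero hall)
      exact ⟨_, ⟨n, rfl⟩, _, h.term hn, (add_sub_cancel _ _).symm⟩

/-- The inverse of the exponential of `D`. -/
def σi (h : Shift D β) : R⟦Λ⟧ →+* R⟦Λ⟧ :=
  (RingEquiv.ofBijective h.σ h.bijective).symm.toRingHom

theorem σ_σi (h : Shift D β) (f : R⟦Λ⟧) : h.σ (h.σi f) = f :=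
  (RingEquiv.ofBijective h.σ h.bijective).apply_symm_apply f

theorem lead_σi (h : Shift D β) {f : R⟦Λ⟧} {γ : Λ} {c : R} (hf : Lead f γ c) :
    Lead (h.σi f) γ c := by
  by_cases h0 : h.σi f = 0
  · have : f = 0 := by rw [← h.σ_σi f, h0, map_zero]
    rw [h0]
    exact ⟨by rw [← hf.1, this], fun _ _ => rfl⟩
  obtain ⟨α, d, hd, hl⟩ := exists_lead h0
  have h1 := h.lead hl
  rw [σ_σi] at h1
  have hle : γ ≤ α := not_lt.1 fun hlt => hd (h1.1.symm.trans (hf.2 α hlt))
  refine ⟨?_, fun β hβ => hl.2 β (hβ.trans_le hle)⟩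
  rcases hle.lt_or_eq with hlt | rfl
  · rw [hl.2 γ hlt, ← hf.1, h1.2 γ hlt]
  · rw [hl.1, ← hf.1, h1.1]

theorem comm_σi (h : Shift D β) {Φ : R⟦Λ⟧ →+ R⟦Λ⟧} (hΦ : Strong Φ)
    (hc : ∀ f, Φ (D f) = D (Φ f)) (f : R⟦Λ⟧) : Φ (h.σi f) = h.σi (Φ f) :=
  h.bijective.1 (by rw [← h.nat h hΦ hc, σ_σi, σ_σi])

end Shift

/-- The derivation `t^β * δ`. -/
def sder (δ : R →+ R) (lam : Λ →+ R) (β : Λ) : R⟦Λ⟧ →+ R⟦Λ⟧ :=
  (AddMonoidHom.mulLeft (single β 1)).comp (hder δ lam)

theorem sder_coeff (δ : R →+ R) (lam : Λ →+ R) (β : Λ) (f : R⟦Λ⟧) (γ : Λ) :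
    (sder δ lam β f).coeff γ = δ (f.coeff (γ - β)) - lam (γ - β) * f.coeff (γ - β) := by
  change (single β 1 * hder δ lam f).coeff γ = _
  rw [coeff_single_mul, one_mul, hder_coeff]

theorem shift_sder {δ : R →+ R} (hδ : IsDer δ) (lam : Λ →+ R) {β : Λ} (hβ : 0 < β) :
    Shift (sder δ lam β) β where
  der f g := by
    change single β 1 * hder δ lam (f * g) =
      f * (single β 1 * hder δ lam g) + single β 1 * hder δ lam f * g
    rw [hδ.hder lam]; ring
  pos := hβ
  supp f γ h h0 := h (by rw [sder_coeff, h0]; simp)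

end

end Pool.Agent.MP_97be6c_lc

end
end

-- part MP_97be6c_lc.Aut
section

set_option autoImplicit false
set_option linter.unusedSectionVars false

open Polynomial HahnSeries

noncomputable section

namespace Pool.Agent.MP_97be6c_lc

theorem hmap_hder {Λ Λ' : Type} [AddCommGroup Λ] [LinearOrder Λ] [IsOrderedAddMonoid Λ]
    [AddCommGroup Λ'] [LinearOrder Λ'] [IsOrderedAddMonoid Λ'] {R R' : Type} [CommRing R]
    [CommRing R'] (φ : R →+* R') (τ : Λ →+ Λ') (hτ : StrictMono τ) {θ : R →+ R} {lam : Λ →+ R}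
    {θ' : R' →+ R'} {lam' : Λ' →+ R'} {c : R'} (h1 : ∀ f, θ' (φ f) = c * φ (θ f))
    (h2 : ∀ γ, lam' (τ γ) = c * φ (lam γ)) (f : R⟦Λ⟧) :
    hder θ' lam' (hmap φ τ hτ f) = HahnSeries.C c * hmap φ τ hτ (hder θ lam f) := by
  refine ext_range τ (fun γ => ?_) fun γ hγ => ?_
  · rw [hder_coeff, HahnSeries.C_apply, coeff_single_zero_mul, hmap_coeff, hmap_coeff, hder_coeff,
      h1, h2, map_sub, map_mul]
    ring
  · rw [hder_coeff, HahnSeries.C_apply, coeff_single_zero_mul, hmap_coeff_of_notMem _ _ _ _ hγ,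
      hmap_coeff_of_notMem _ _ _ _ hγ]
    simp

/-- Series over `K n [X]`. -/
abbrev PS (n : ℕ) : Type := (stage n).K[X]⟦(stage n).A⟧

/-- The logarithmic derivatives of the monomials. -/
abbrev lamK (n : ℕ) : (stage n).A →+ (stage n).K := (stage n).θ.comp (stage n).A.subtype

/-- The derivation on `PS n`. -/
abbrev ttK (n : ℕ) : PS n →+ PS n := tt (stage n).θ (lamK n)

/-- The inclusion of level `n + 1` in `PS n`. -/
abbrev jK (n : ℕ) : (stage n).K⟦(stage n).A⟧ →+* PS n := jj (stage n).A (stage n).K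

/-- The upward shift on `PS n`. -/
def psiT (n : ℕ) : PS n →+* (stage (n + 1)).K⟦(stage (n + 1)).A⟧ :=
  hmap (psi n) (up n).onA (onA_mono n)

theorem up_succ (n : ℕ) (f : (stage n).K⟦(stage n).A⟧) :
    (up (n + 1)).φ (toLex f) = toLex (hmap (up n).φ (up n).onA (onA_mono n) f) := rfl

theorem psiT_jK (n : ℕ) (f : (stage n).K⟦(stage n).A⟧) :
    psiT n (jK n f) = hmap (up n).φ (up n).onA (onA_mono n) f := by
  refine ext_range (up n).onA (fun γ => ?_) fun γ hγ => ?_
  · rw [psiT, hmap_coeff, hmap_coeff, jj_coeff, psi_C]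
  · rw [psiT, hmap_coeff_of_notMem _ _ _ _ hγ, hmap_coeff_of_notMem _ _ _ _ hγ]

theorem psiT_tt (n : ℕ) (g : PS n) :
    hder (stage (n + 1)).θ (lamK (n + 1)) (psiT n g) =
      HahnSeries.C (xs (n + 1)) * psiT n (ttK n g) :=
  hmap_hder _ _ _ (θ_psi n) (fun γ => by rw [clam_apply, psi_C]; exact θ_up n γ) g

theorem ex_up (n : ℕ) (c : (stage n).K) : (stage (n + 1)).ex ((up n).φ c) =
    single ((up n).onA (-(stage n).pr c)) ((up n).φ ((stage n).E c) * 1) := by
  have := up_ex n c
  rw [up_succ, Stage.ex_def, hmap_single] at this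
  rw [mul_one]
  exact (toLex.injective this).symm

theorem morOf_LT (n : ℕ) (u : PS n →+* PS n) (h1 : ∀ f γ c, Lead f γ c → Lead (u f) γ c) :
    LT ((psiT n).comp (u.comp (jK n))) (up n).φ (up n).onA fun _ => 1 :=
  ⟨(up n).mono, onA_mono n, fun _ => one_pos, rfl, fun f γ c h => by
    have := (h1 _ _ _ (h.hmap Polynomial.C (AddMonoidHom.id _) strictMono_id)).hmap (psi n)
      (up n).onA (onA_mono n)
    rw [psi_C] at this
    rw [mul_one]
    exact this⟩

theorem morOf_hθ (n : ℕ) (u : PS n →+* PS n) (h2 : ∀ f, ttK n (u f) = u (ttK n f))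
    (f : (stage n).K⟦(stage n).A⟧) :
    hder (stage (n + 1)).θ (lamK (n + 1)) ((psiT n).comp (u.comp (jK n)) f) =
      HahnSeries.C (xs (n + 1)) * (psiT n).comp (u.comp (jK n)) (hder (stage n).θ (lamK n) f) := by
  simp only [RingHom.comp_apply]
  rw [psiT_tt, h2, tt_jj]

/-- The morphism given by a ring endomorphism of `PS n`. -/
def morOf (n : ℕ) (u : PS n →+* PS n) (h1 : ∀ f γ c, Lead f γ c → Lead (u f) γ c)
    (h2 : ∀ f, ttK n (u f) = u (ttK n f)) : Mor (stage n).next (stage (n + 1)).next :=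
  (morOf_LT n u h1).mor (good n).pre (good (n + 1)).pre (HahnSeries.C (xs (n + 1)))
    (morOf_hθ n u h2) fun c => ⟨_, _, (good n).E_pos c, rfl, ex_up n c⟩

theorem morOf_φ (n : ℕ) (u : PS n →+* PS n) (h1 h2) (f : (stage n).K⟦(stage n).A⟧) :
    (morOf n u h1 h2).φ (toLex f) = toLex (psiT n (u (jK n f))) := rfl

theorem morOf_c (n : ℕ) (u : PS n →+* PS n) (h1 h2) : (morOf n u h1 h2).c = xs (n + 2) := rfl

namespace Dat

variable {b : ℝ} {n : ℕ}

/-- The extension of `δ` to `K n [X]`. -/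
def δh (d : Dat b n) : (stage n).K[X] →+ (stage n).K[X] := pext d.δ 0

theorem δh_der (d : Dat b n) : IsDer d.δh := d.der.pext 0

theorem δh_C (d : Dat b n) (a : (stage n).K) : d.δh (Polynomial.C a) = d.δ a := pext_C _ _ _

theorem δh_comm (d : Dat b n) (p : (stage n).K[X]) : d.δh (th (stage n).θ p) =
    th (stage n).θ (d.δh p) - Polynomial.C ((stage n).θ (bet b n)) * d.δh p := by
  have h1 := d.δh_der
  have h2 := (good n).der.th
  let E : (stage n).K[X] →+ (stage n).K[X] := d.δh.comp (th (stage n).θ) -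
    (th (stage n).θ).comp d.δh +
      (AddMonoidHom.mulLeft (Polynomial.C ((stage n).θ (bet b n)))).comp d.δh
  have hE : ∀ p, E p = d.δh (th (stage n).θ p) - th (stage n).θ (d.δh p) +
    Polynomial.C ((stage n).θ (bet b n)) * d.δh p := fun _ => rfl
  have := der_ext (RingHom.id _) E 0 (fun p q => by
      simp only [hE, h1 _ _, h2 _ _, map_add, RingHom.id_apply]; ring) (by simp)
    (fun a => by rw [hE, th_C, δh_C, δh_C, d.comm]; simp)
    (by rw [hE, (good n).der.th_X, h1.one, δh, pext_X d.der]; simp) p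
  rw [hE, AddMonoidHom.zero_apply] at this
  linear_combination this

/-- The derivation `exp (-β) δ` on `PS n`. -/
def D (d : Dat b n) : PS n →+ PS n := sder d.δh (d.δ.comp (stage n).A.subtype) (bet b n)

theorem D_coeff (d : Dat b n) (f : PS n) (γ : (stage n).A) : (d.D f).coeff γ =
    d.δh (f.coeff (γ - bet b n)) - d.δ (γ - bet b n : (stage n).A) * f.coeff (γ - bet b n) :=
  sder_coeff _ _ _ _ _

theorem shift (d : Dat b n) (hb : 0 < b) : Shift d.D (bet b n) :=
  shift_sder d.δh_der _ (bet_pos hb n)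

theorem tt_D (d : Dat b n) (f : PS n) : ttK n (d.D f) = d.D (ttK n f) := by
  ext1
  funext γ
  obtain ⟨γ, rfl⟩ : ∃ γ', γ = γ' + bet b n := ⟨γ - bet b n, (sub_add_cancel _ _).symm⟩
  rw [ttK, tt, hder_coeff, D_coeff, D_coeff, hder_coeff, add_sub_cancel_right, clam_apply,
    clam_apply, map_sub, map_sub, (good n).der.th, d.δh_der, δh_comm, δh_C]
  simp only [AddMonoidHom.comp_apply, AddSubgroup.subtype_apply, map_add, d.comm]
  ring

/-- The shifted automorphism. -/
def sp (d : Dat b n) (hb : 0 < b) : Mor (stage (n + 1)) (stage (n + 2)) :=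
  morOf n (d.shift hb).σ (fun _ _ _ h => (d.shift hb).lead h)
    ((d.shift hb).nat (d.shift hb) (strong_hder _ _) d.tt_D)

/-- The shifted inverse automorphism. -/
def sm (d : Dat b n) (hb : 0 < b) : Mor (stage (n + 1)) (stage (n + 2)) :=
  morOf n (d.shift hb).σi (fun _ _ _ h => (d.shift hb).lead_σi h)
    ((d.shift hb).comm_σi (strong_hder _ _) d.tt_D)

theorem jK_psiT (n : ℕ) (g : PS n) : jK (n + 1) (psiT n g) =
    hmap (Polynomial.C.comp (psi n)) (up n).onA (onA_mono n) g := by
  refine ext_range (up n).onA (fun γ => ?_) fun γ hγ => ?_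
  · rw [jj_coeff, psiT, hmap_coeff, hmap_coeff, RingHom.comp_apply]
  · rw [jj_coeff, psiT, hmap_coeff_of_notMem _ _ _ _ hγ, hmap_coeff_of_notMem _ _ _ _ hγ,
      map_zero]

theorem natural {d : Dat b n} {d' : Dat b (n + 1)} (h : Link d d') (hb : 0 < b) (g : PS n) :
    jK (n + 1) (psiT n ((d.shift hb).σ g)) = (d'.shift hb).σ (jK (n + 1) (psiT n g)) := by
  rw [jK_psiT, jK_psiT]
  refine (d.shift hb).nat (d'.shift hb) (strong_hmap _ _ (onA_mono n)) (fun g => ?_) g
  change hmap _ _ (onA_mono n) (d.D g) = d'.D (hmap _ _ (onA_mono n) g)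
  refine ext_range (up n).onA (fun γ => ?_) fun γ hγ => ?_
  · have e : (up n).onA γ - bet b (n + 1) = (up n).onA (γ - bet b n) := (map_sub _ _ _).symm
    have e' : d'.δ ((up n).onA (γ - bet b n)) =
        Polynomial.C (psi n (d.δ (γ - bet b n : (stage n).A))) := by
      rw [← δh_C d, δh, ← h, psi_C]; rfl
    rw [hmap_coeff, D_coeff, D_coeff, e, hmap_coeff, e', RingHom.comp_apply, RingHom.comp_apply,
      δh_C, h, map_sub, map_sub, map_mul, map_mul, δh]
  · have hγ' : γ - bet b (n + 1) ∉ Set.range (up n).onA := by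
      rintro ⟨a, ha⟩
      exact hγ ⟨a + bet b n, by rw [map_add, ha]; exact sub_add_cancel _ _⟩
    rw [hmap_coeff_of_notMem _ _ _ _ hγ, D_coeff, hmap_coeff_of_notMem _ _ _ _ hγ']
    simp

theorem sp_up {d : Dat b n} {d' : Dat b (n + 1)} (h : Link d d') (hb : 0 < b)
    (f : (stage (n + 1)).K) :
    (d'.sp hb).φ ((up (n + 1)).φ f) = (up (n + 2)).φ ((d.sp hb).φ f) := by
  have key : ∀ f : (stage n).K⟦(stage n).A⟧,
      psiT (n + 1) ((d'.shift hb).σ (jK (n + 1) (hmap (up n).φ (up n).onA (onA_mono n) f))) =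
        hmap (up (n + 1)).φ (up (n + 1)).onA (onA_mono (n + 1))
          (psiT n ((d.shift hb).σ (jK n f))) := fun f => by
    rw [← psiT_jK, ← psiT_jK, natural h hb]
  exact key f

theorem sp_sm {d : Dat b n} {d' : Dat b (n + 1)} (h : Link d d') (hb : 0 < b)
    (f : (stage (n + 1)).K) :
    (d'.sp hb).φ ((d.sm hb).φ f) = (up (n + 2)).φ ((up (n + 1)).φ f) := by
  have key : ∀ f : (stage n).K⟦(stage n).A⟧,
      psiT (n + 1) ((d'.shift hb).σ (jK (n + 1) (psiT n ((d.shift hb).σi (jK n f))))) =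
        hmap (up (n + 1)).φ (up (n + 1)).onA (onA_mono (n + 1))
          (hmap (up n).φ (up n).onA (onA_mono n) f) := fun f => by
    rw [← natural h hb, Shift.σ_σi, psiT_jK, psiT_jK]
  exact key f

theorem sp_fix (d : Dat b n) (hb : 0 < b) (f : (stage n).K⟦(stage n).A⟧)
    (h : ∀ a ∈ f.support, d.δ (f.coeff a) = 0 ∧ d.δ a = 0) :
    (d.sp hb).φ (toLex f) = (up (n + 1)).φ (toLex f) := by
  have : d.D (jK n f) = 0 := by
    ext1
    funext γ
    rw [D_coeff, jj_coeff, δh_C]
    by_cases h0 : f.coeff (γ - bet b n) = 0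
    · rw [h0]; simp
    · rw [(h _ h0).1, (h _ h0).2]; simp
  have h2 : psiT n ((d.shift hb).σ (jK n f)) = hmap (up n).φ (up n).onA (onA_mono n) f := by
    rw [(d.shift hb).σ_fix this, psiT_jK]
  exact h2

theorem sp_inc (d : Dat b n) (hb : 0 < b) {a : (stage n).K} (h : d.δ a = 0) :
    (d.sp hb).φ (inc n a) = (up (n + 1)).φ (inc n a) := by
  refine d.sp_fix hb (HahnSeries.C a) fun γ hγ => ?_
  have : γ = 0 := support_single_subset hγ
  subst this
  exact ⟨(congrArg d.δ (coeff_single_same _ _)).trans h, map_zero _⟩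

theorem δ_rho (d : Dat b n) (hb : 0 < b) (r : ℝ) : d.δ (rho n r) = 0 := by
  refine ker_zero (good n) (bet_pos hb n).ne' ?_
  have := d.comm (rho n r)
  rw [(good n).θρ, map_zero] at this
  exact sub_eq_zero.1 this.symm

theorem δ_mu (d : Dat b n) (hb : 0 < b) : d.δ (nuK n * upN n (xs 0)) = 0 := by
  have := d.comm (bet b n)
  rw [d.hβ, map_zero, mul_zero, sub_zero, θ_bet, d.der, d.δ_rho hb, mul_zero, add_zero] at this
  exact (mul_eq_zero.1 this).resolve_left
    (Polynomial.C_ne_zero.2 ((_root_.map_ne_zero _).2 hb.ne'))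

theorem sp_move (d : Dat b n) (hb : 0 < b) {z : (stage n).K} (hz : d.δ z = 1) :
    (d.sp hb).φ (toLex (single (-bet b n) z)) =
      (up (n + 1)).φ (toLex (single (-bet b n) z)) + 1 := by
  have h1 : d.D (jK n (single (-bet b n) z)) = 1 := by
    ext1
    funext γ
    rw [D_coeff, jj_coeff, δh_C, HahnSeries.coeff_one]
    split_ifs with h0
    · rw [h0, zero_sub, coeff_single_same, hz, AddSubgroup.coe_neg, map_neg, d.hβ]; simp
    · rw [coeff_single_of_ne (fun h => h0 (by simpa [sub_eq_iff_eq_add] using h))]; simp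
  have h2 : psiT n ((d.shift hb).σ (jK n (single (-bet b n) z))) =
      hmap (up n).φ (up n).onA (onA_mono n) (single (-bet b n) z) + 1 := by
    rw [(d.shift hb).σ_eq (by rw [h1, (d.shift hb).der.one]), h1, map_add, map_one, psiT_jK]
  exact h2

end Dat

end Pool.Agent.MP_97be6c_lc

end
end

-- part MP_97be6c_lc.Short
section

set_option autoImplicit false
set_option linter.unusedSectionVars false

open HahnSeries

noncomputable section

namespace Pool.Agent.MP_97be6c_lc

/-- Every increasing family indexed by an order of uncountable cofinality is eventually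
constant. -/
def Short (α : Type) [Preorder α] : Prop :=
  ∀ (ι : Type) [LinearOrder ι], (∀ s : Set ι, s.Countable → BddAbove s) →
    ∀ f : ι → α, Monotone f → ∃ i₀, ∀ i, i₀ ≤ i → f i = f i₀

theorem short_real : Short ℝ := by
  intro ι _ hι f hf
  obtain ⟨i₀, -⟩ := hι ∅ Set.countable_empty
  have : Nonempty ι := ⟨i₀⟩
  have hb : BddAbove (Set.range f) := by
    by_contra hn
    have : ∀ n : ℕ, ∃ i, (n : ℝ) < f i := fun n => by
      obtain ⟨_, ⟨i, rfl⟩, h⟩ := not_bddAbove_iff.1 hn n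
      exact ⟨i, h⟩
    choose g hg using this
    obtain ⟨b, hb⟩ := hι _ (Set.countable_range g)
    obtain ⟨n, hn⟩ := exists_nat_gt (f b)
    exact absurd ((hg n).trans_le (hf (hb ⟨n, rfl⟩))) (not_lt.2 hn.le)
  have : ∀ n : ℕ, ∃ i, (⨆ i, f i) - 1 / (n + 1) < f i := fun n =>
    exists_lt_of_lt_ciSup (sub_lt_self _ (by positivity))
  choose g hg using this
  obtain ⟨b, hb'⟩ := hι _ (Set.countable_range g)
  refine ⟨b, fun i hi => le_antisymm ((le_ciSup hb i).trans ?_) (hf hi)⟩
  by_contra hlt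
  obtain ⟨n, hn⟩ := exists_nat_one_div_lt (sub_pos.2 (not_le.1 hlt))
  have := (hg n).trans_le (hf (hb' ⟨n, rfl⟩))
  linarith

theorem Short.countable {α : Type} [LinearOrder α] (h : Short α) {S : Set α} (hS : S.IsWF) :
    S.Countable := by
  by_contra hn
  let I : Set α := {a ∈ S | {b ∈ S | b < a}.Countable}
  have hI : ¬I.Countable := by
    intro hc
    have hne : (S \ I).Nonempty := by
      by_contra he
      exact hn (hc.mono (Set.sdiff_eq_empty.1 (Set.not_nonempty_iff_eq_empty.1 he)))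
    have hw : (S \ I).IsWF := hS.mono Set.sdiff_subset
    have hm := hw.min_mem hne
    refine hm.2 ⟨hm.1, hc.mono fun b hb => ?_⟩
    by_contra hbI
    exact hw.not_lt_min hne ⟨hb.1, hbI⟩ hb.2
  have hseg : ∀ a : I, {b : I | b ≤ a}.Countable := fun a =>
    ((a.2.2.insert a.1).preimage Subtype.val_injective).mono fun b hb => by
      rcases hb.lt_or_eq with hlt | heq
      · exact Or.inr ⟨b.2.1, hlt⟩
      · exact Or.inl heq
  obtain ⟨i₀, hi₀⟩ := h I (fun s hs => by
    by_contra hb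
    apply hI
    rw [← Set.countable_coe_iff, ← Set.countable_univ_iff]
    refine (hs.biUnion fun a _ => hseg a).mono fun b _ => ?_
    obtain ⟨a, ha, hlt⟩ := not_bddAbove_iff.1 hb b
    exact Set.mem_iUnion₂.2 ⟨a, ha, hlt.le⟩) Subtype.val fun _ _ h => h
  apply hI
  rw [← Set.countable_coe_iff, ← Set.countable_univ_iff]
  refine (hseg i₀).mono fun b _ => ?_
  rcases le_total b i₀ with hle | hle
  · exact hle
  · exact (Subtype.ext (hi₀ b hle)).le

theorem Short.anti {α : Type} [AddCommGroup α] [LinearOrder α] [IsOrderedAddMonoid α]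
    (h : Short α) (ι : Type) [LinearOrder ι] (hι : ∀ s : Set ι, s.Countable → BddAbove s)
    (f : ι → α) (hf : Antitone f) : ∃ i₀, ∀ i, i₀ ≤ i → f i = f i₀ := by
  obtain ⟨i₀, h0⟩ := h ι hι (fun i => -f i) hf.neg
  exact ⟨i₀, fun i hi => neg_injective (h0 i hi)⟩

theorem Short.sub {α : Type} [LinearOrder α] (h : Short α) (p : α → Prop) : Short (Subtype p) := by
  intro ι _ hι f hf
  obtain ⟨i₀, h0⟩ := h ι hι (fun i => (f i).1) fun _ _ h => hf h
  exact ⟨i₀, fun i hi => Subtype.ext (h0 i hi)⟩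

section

variable {Λ k : Type} [AddCommGroup Λ] [LinearOrder Λ] [IsOrderedAddMonoid Λ] [Field k]
  [LinearOrder k]

/-- `a < b`, the first difference being at `γ`. -/
def Dif (a b : Lex k⟦Λ⟧) (γ : Λ) : Prop :=
  (∀ β, β < γ → (ofLex a).coeff β = (ofLex b).coeff β) ∧ (ofLex a).coeff γ < (ofLex b).coeff γ

theorem dif_of_lt {a b : Lex k⟦Λ⟧} (h : a < b) : ∃ γ, Dif a b γ := (HahnSeries.lt_iff _ _).1 h

theorem Dif.tri {a b c : Lex k⟦Λ⟧} {γ δ : Λ} (h1 : Dif a b γ) (h2 : Dif a c δ) (h : b ≤ c) :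
    δ ≤ γ := by
  by_contra hlt
  have hlt := not_le.1 hlt
  rcases h.lt_or_eq with h | rfl
  · obtain ⟨ε, h3⟩ := dif_of_lt h
    rcases lt_trichotomy ε γ with h4 | rfl | h4
    · exact h3.2.ne ((h1.1 ε h4).symm.trans (h2.1 ε (h4.trans hlt)))
    · exact (h1.2.trans h3.2).ne (h2.1 _ hlt)
    · exact h1.2.ne ((h2.1 γ hlt).trans (h3.1 γ h4).symm)
  · exact h1.2.ne (h2.1 γ hlt)

theorem Dif.tri' {a b c : Lex k⟦Λ⟧} {δ ε : Λ} (h1 : Dif a c δ) (h2 : Dif b c ε) (h : a ≤ b) :
    δ ≤ ε := by
  by_contra hlt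
  have hlt := not_le.1 hlt
  rcases h.lt_or_eq with h | rfl
  · obtain ⟨γ, h3⟩ := dif_of_lt h
    rcases lt_trichotomy γ ε with h4 | rfl | h4
    · exact h3.2.ne ((h1.1 γ (h4.trans hlt)).trans (h2.1 γ h4).symm)
    · exact (h3.2.trans h2.2).ne (h1.1 _ hlt)
    · exact h2.2.ne ((h3.1 ε h4).symm.trans (h1.1 ε hlt))
  · exact h2.2.ne (h1.1 ε hlt)

theorem Short.hahn (hΛ : Short Λ) (hk : Short k) : Short (Lex k⟦Λ⟧) := by
  intro ι _ hι f hf
  by_contra hn
  push Not at hn
  choose j hj hne using hn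
  have hlt : ∀ i i', f i < f (max i' (j i)) := fun i i' =>
    (lt_of_le_of_ne (hf (hj i)) (hne i).symm).trans_le (hf (le_max_right _ _))
  choose v hv using fun i i' => dif_of_lt (hlt i i')
  have : ∀ i, ∃ J γ, ∀ i', J ≤ i' → Dif (f i) (f i') γ := by
    intro i
    obtain ⟨J, hJ⟩ := hΛ.anti ι hι (v i) fun a b hab =>
      (hv i a).tri (hv i b) (hf (max_le_max_right _ hab))
    refine ⟨max J (j i), v i J, fun i' hi' => ?_⟩
    have := hv i i'
    rwa [max_eq_left ((le_max_right _ _).trans hi'), hJ i' ((le_max_left _ _).trans hi')] at this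
  choose J w hw using this
  obtain ⟨i₀, hi₀⟩ := hΛ ι hι w fun a b hab =>
    (hw a _ (le_max_left _ (J b))).tri' (hw b _ (le_max_right _ _)) (hf hab)
  obtain ⟨i₁, hi₁⟩ := hk ι hι (fun i => (ofLex (f (max i i₀))).coeff (w i₀)) fun a b hab => by
    have hab' : max a i₀ ≤ max b i₀ := max_le_max_right _ hab
    rcases (hf hab').lt_or_eq with h | h
    · obtain ⟨γ, hγ⟩ := dif_of_lt h
      have := hγ.tri (hw _ _ (le_max_left _ (max b i₀))) (hf (le_max_right _ _))
      rw [hi₀ _ (le_max_right _ _)] at this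
      rcases this.lt_or_eq with h1 | h1
      · exact (hγ.1 _ h1).le
      · rw [h1]; exact hγ.2.le
    · simp only [h, le_refl]
  have h1 := (hw (max i₁ i₀) _ (le_max_left _ (max i₁ i₀))).2
  have h2 := hi₁ (max (J (max i₁ i₀)) (max i₁ i₀)) ((le_max_left _ _).trans (le_max_right _ _))
  rw [max_eq_left ((le_max_right _ _).trans (le_max_right _ _))] at h2
  rw [hi₀ _ (le_max_right _ _), h2] at h1
  exact lt_irrefl _ h1

end

theorem short_stage : ∀ m : ℕ, Short (stage m).K
  | 0 => short_real.hahn short_real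
  | m + 1 => ((short_stage m).sub _).hahn (short_stage m)

theorem countable_support (m : ℕ) (f : (stage m).K⟦(stage m).A⟧) : f.support.Countable :=
  ((short_stage m).sub _).countable f.isWF_support

end Pool.Agent.MP_97be6c_lc

end
end
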