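import Mathlib
import Pool.Agent.MP_97be6c_lc.Mg.Short
import Pool.Agent.MP_97be6c_lc.Defs2

-- part MP_97be6c_lc.Glue
section

set_option autoImplicit false
set_option linter.unusedSectionVars false

open HahnSeries

noncomputable section

namespace Pool.Agent.MP_97be6c_lc

namespace Chain

variable (c : Chain)

theorem from_compat {Y : Type} {N : ℕ} (g : ∀ m, N ≤ m → c.X m → Y)
    (hg : ∀ m h x, g (m + 1) (Nat.le_succ_of_le h) (c.step m x) = g m h x) {i j : ℕ}
    (hi : N ≤ i) (hij : i ≤ j) (x : c.X i) : g j (hi.trans hij) (c.map i j hij x) = g i hi x := by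
  induction j, hij using Nat.le_induction with
  | base => rw [map_self]; rfl
  | succ j h ih => rw [c.map_succ h, ← ih]; exact hg j _ _

theorem map_map {i j k : ℕ} (hij : i ≤ j) (hjk : j ≤ k) (x : c.X i) :
    c.map j k hjk (c.map i j hij x) = c.map i k (hij.trans hjk) x :=
  c.directed.map_map hij hjk x

theorem step_eq (m : ℕ) (x : c.X m) : c.step m x = c.map m (m + 1) m.le_succ x := by
  rw [c.map_succ le_rfl, map_self]; rfl

theorem exists_lift {Y : Type} {N : ℕ} (g : ∀ m, N ≤ m → c.X m → Y)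
    (hg : ∀ m h x, g (m + 1) (Nat.le_succ_of_le h) (c.step m x) = g m h x) :
    ∃ G : c.Lim → Y, ∀ m h x, G (c.of m x) = g m h x := by
  refine ⟨c.lift (fun m x => g (max m N) (le_max_right _ _) (c.map m _ (le_max_left _ _) x))
    fun m x => ?_, fun m h x => c.from_compat g hg h (le_max_left _ _) x⟩
  rw [step_eq, map_map, ← c.from_compat g hg (le_max_right m N)
    (max_le_max_right N m.le_succ), map_map]

theorem exists_ge (N : ℕ) (a b : c.Lim) : ∃ m, N ≤ m ∧ ∃ x y, a = c.of m x ∧ b = c.of m y := by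
  obtain ⟨m, x, y, rfl, rfl⟩ := c.exists_of₂ a b
  exact ⟨max m N, le_max_right _ _, _, _, (c.of_map (le_max_left _ _) x).symm,
    (c.of_map (le_max_left _ _) y).symm⟩

theorem exists_ge₁ (N : ℕ) (a : c.Lim) : ∃ m, N ≤ m ∧ ∃ x, a = c.of m x := by
  obtain ⟨m, h, x, -, hx, -⟩ := c.exists_ge N a a
  exact ⟨m, h, x, hx⟩

theorem exists_liftHom {Y : Type} [Field Y] {N : ℕ} (g : ∀ m, N ≤ m → c.X m →+* Y)
    (hg : ∀ m h x, g (m + 1) (Nat.le_succ_of_le h) (c.step m x) = g m h x) :
    ∃ G : c.Lim →+* Y, ∀ m h x, G (c.of m x) = g m h x := by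
  obtain ⟨G, hG⟩ := c.exists_lift (fun m h => g m h) hg
  have hG' : ∀ m h x, G (c.ofHom m x) = g m h x := hG
  refine ⟨{ toFun := G
            map_one' := by rw [← map_one (c.ofHom N), hG' N le_rfl, map_one]
            map_zero' := by rw [← map_zero (c.ofHom N), hG' N le_rfl, map_zero]
            map_mul' := fun a b => ?_
            map_add' := fun a b => ?_ }, hG⟩
  · obtain ⟨m, h, x, y, rfl, rfl⟩ := c.exists_ge N a b
    rw [hG m h, hG m h, ← map_mul, ← hG' m h, map_mul]; rfl
  · obtain ⟨m, h, x, y, rfl, rfl⟩ := c.exists_ge N a b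
    rw [hG m h, hG m h, ← map_add, ← hG' m h, map_add]; rfl

theorem exists_finite {A : Set c.Lim} (hA : A.Finite) (N : ℕ) :
    ∃ m, N ≤ m ∧ ∃ P : Set (c.X m), P.Finite ∧ A ⊆ c.of m '' P := by
  induction A, hA using Set.Finite.induction_on with
  | empty => exact ⟨N, le_rfl, ∅, Set.finite_empty, Set.empty_subset _⟩
  | @insert a A _ _ ih =>
    obtain ⟨m, hm, P, hP, hAP⟩ := ih
    obtain ⟨m', hm', x, rfl⟩ := c.exists_ge₁ m a
    refine ⟨m', hm.trans hm', insert x (c.map m m' hm' '' P), (hP.image _).insert _, ?_⟩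
    rintro b (rfl | hb)
    · exact ⟨x, Or.inl rfl, rfl⟩
    · obtain ⟨p, hp, rfl⟩ := hAP hb
      exact ⟨_, Or.inr ⟨p, hp, rfl⟩, c.of_map hm' p⟩

end Chain

/-- The morphisms induced at all higher levels. -/
def tw {N : ℕ} (s : Mor (stage N) (stage (N + 1))) (m : ℕ) (h : N ≤ m) :
    Mor (stage m) (stage (m + 1)) :=
  Nat.leRec (motive := fun m _ => Mor (stage m) (stage (m + 1))) s
    (fun k _ t => t.next (good k) (good (k + 1))) h

theorem tw_self {N : ℕ} (s : Mor (stage N) (stage (N + 1))) : tw s N le_rfl = s :=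
  Nat.leRec_self _ _

theorem tw_succ {N m : ℕ} (s : Mor (stage N) (stage (N + 1))) (h : N ≤ m) (h' : N ≤ m + 1) :
    tw s (m + 1) h' = (tw s m h).next (good m) (good (m + 1)) := Nat.leRec_succ _ _ h

theorem tw_up {N m : ℕ} (h : N ≤ m) : tw (upMor N) m h = upMor m := by
  induction m, h using Nat.le_induction with
  | base => exact tw_self _
  | succ m h ih => rw [tw_succ _ h, ih]; rfl

theorem tw_c {N m : ℕ} {s : Mor (stage N) (stage (N + 1))} (hs : s.c = xs (N + 1)) (h : N ≤ m) :
    (tw s m h).c = xs (m + 1) := by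
  induction m, h using Nat.le_induction with
  | base => rw [tw_self, hs]
  | succ m h ih => rw [tw_succ _ h]; exact congrArg (inc (m + 1)) ih

theorem tw_comp {N m : ℕ} {a a' : Mor (stage N) (stage (N + 1))}
    {c c' : Mor (stage (N + 1)) (stage (N + 2))} (H : ∀ f, c.φ (a.φ f) = c'.φ (a'.φ f))
    (h : N ≤ m) (f : (stage m).K) :
    (tw c (m + 1) (Nat.succ_le_succ h)).φ ((tw a m h).φ f) =
      (tw c' (m + 1) (Nat.succ_le_succ h)).φ ((tw a' m h).φ f) := by
  induction m, h using Nat.le_induction with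
  | base => simp only [tw_self, H]
  | succ m h ih =>
    rw [tw_succ c (Nat.succ_le_succ h), tw_succ c' (Nat.succ_le_succ h), tw_succ a h, tw_succ a' h]
    refine ((Mor.nextφ_comp _ _ (good m) (good (m + 1)) (good (m + 2)) f).symm.trans ?_).trans
      (Mor.nextφ_comp _ _ (good m) (good (m + 1)) (good (m + 2)) f)
    exact Mor.nextφ_congr _ _ _ _ _ fun _ _ => ⟨ih _, ih _⟩

theorem tw_fix {N M : ℕ} (h : N ≤ M) {P : Set (stage M).K} (hP : P.Countable) :
    ∃ P' : Set (stage N).K, P'.Countable ∧ ∀ s : Mor (stage N) (stage (N + 1)),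
      (∀ p ∈ P', s.φ p = (up N).φ p) → ∀ p ∈ P, (tw s M h).φ p = (up M).φ p := by
  induction M, h using Nat.le_induction with
  | base => exact ⟨P, hP, fun s hs => by rwa [tw_self]⟩
  | succ M h ih =>
    let Q : (stage M).K⟦(stage M).A⟧ → Set (stage M).K := fun f =>
      f.coeff '' f.support ∪ Subtype.val '' f.support
    obtain ⟨P', hP', H⟩ := ih (P := ⋃ p ∈ P, Q p) (hP.biUnion fun p _ =>
      ((countable_support M p).image _).union ((countable_support M p).image _))
    refine ⟨P', hP', fun s hs p hp => ?_⟩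
    rw [tw_succ s h, ← upMor_φ]
    refine Mor.nextφ_congr _ (upMor M) (good M) (good (M + 1)) p fun a ha => ?_
    rw [upMor_φ, upMor_φ]
    exact ⟨H s hs _ (Set.mem_iUnion₂.2 ⟨p, hp, Or.inl ⟨a, ha, rfl⟩⟩),
      H s hs _ (Set.mem_iUnion₂.2 ⟨p, hp, Or.inr ⟨a, ha, rfl⟩⟩)⟩

theorem exists_glue {N : ℕ} (s : Mor (stage N) (stage (N + 1))) : ∃ G : TE →+* TE,
    ∀ m h f, G (expChain.of m f) = expChain.of (m + 1) ((tw s m h).φ f) :=
  expChain.exists_liftHom (fun m h => (expChain.ofHom (m + 1)).comp (tw s m h).φ) fun m h f => by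
    rw [tw_succ s h]
    exact (congrArg (expChain.of (m + 2)) (Mor.nextφ_C _ (good m) (good (m + 1)) f)).trans
      (expChain.of_succ (m + 1) _)

/-- The induced map on exponential transseries. -/
def glue {N : ℕ} (s : Mor (stage N) (stage (N + 1))) : TE →+* TE := (exists_glue s).choose

theorem glue_of {N m : ℕ} (s : Mor (stage N) (stage (N + 1))) (h : N ≤ m) (f : (stage m).K) :
    glue s (expChain.of m f) = expChain.of (m + 1) ((tw s m h).φ f) :=
  (exists_glue s).choose_spec m h f

theorem glue_self {N : ℕ} (s : Mor (stage N) (stage (N + 1))) (f : (stage N).K) :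
    glue s (expChain.of N f) = expChain.of (N + 1) (s.φ f) := by
  rw [glue_of s le_rfl, tw_self]

theorem glue_up (N : ℕ) (f : TE) : glue (upMor N) f = upFun f := by
  obtain ⟨m, h, f, rfl⟩ := expChain.exists_ge₁ N f
  rw [glue_of _ h, tw_up, upMor_φ]
  rfl

theorem glue_comp {N : ℕ} {a a' : Mor (stage N) (stage (N + 1))}
    {c c' : Mor (stage (N + 1)) (stage (N + 2))} (H : ∀ f, c.φ (a.φ f) = c'.φ (a'.φ f))
    (f : TE) : glue c (glue a f) = glue c' (glue a' f) := by
  obtain ⟨m, h, f, rfl⟩ := expChain.exists_ge₁ N f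
  rw [glue_of _ h, glue_of _ h, glue_of _ (Nat.succ_le_succ h), glue_of _ (Nat.succ_le_succ h),
    tw_comp H]

theorem theta_glue {N : ℕ} {s : Mor (stage N) (stage (N + 1))} (hs : s.c = xs (N + 1)) (f : TE) :
    thetaE (glue s f) = xE * glue s (thetaE f) := by
  obtain ⟨m, h, f, rfl⟩ := expChain.exists_ge₁ N f
  have e : thetaE (expChain.of m f) = expChain.of m ((stage m).θ f) := rfl
  rw [e, glue_of _ h, glue_of _ h, ← xE_eq (m + 1), ← tw_c hs h]
  exact (congrArg (expChain.of (m + 1)) ((tw s m h).hθ f)).trans (map_mul (expChain.ofHom _) _ _)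

theorem exp_glue {N : ℕ} (s : Mor (stage N) (stage (N + 1))) (f : TE) :
    expE (glue s f) = glue s (expE f) := by
  obtain ⟨m, h, f, rfl⟩ := expChain.exists_ge₁ N f
  have e : expE (expChain.of m f) = expChain.of (m + 1) (toLex ((stage m).ex f)) := rfl
  rw [e, glue_of _ h, glue_of _ (Nat.le_succ_of_le h), tw_succ s h]
  exact congrArg (expChain.of (m + 2)) (Mor.nextφ_ex _ (good m) (good (m + 1)) f).symm

theorem upN_succ (n : ℕ) (f : (stage 0).K) :
    expChain.of (n + 1) (upN (n + 1) f) = upFun (expChain.of n (upN n f)) := rfl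

theorem mu_eq : ∀ n : ℕ, mu n = expChain.of n (nuK n * upN n (xs 0))
  | 0 => congrArg (expChain.of 0) (one_mul _).symm
  | n + 1 => by
    have e : mu (n + 1) = xE * upFun (mu n) := rfl
    rw [e, mu_eq n, ← xE_eq (n + 1), nuK, upN, RingHom.comp_apply, mul_assoc, ← map_mul]
    exact (map_mul (expChain.ofHom (n + 1)) _ _).symm

theorem rho_of : ∀ (m : ℕ) (r : ℝ), expChain.of m (rho m r) = expChain.of 0 (incl ℝ ℝ r)
  | 0, _ => rfl
  | m + 1, r => (expChain.of_succ m _).trans (rho_of m r)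

theorem cst_eq : ∀ (n : ℕ) (r : ℝ), logChain.of n (expChain.of 0 (incl ℝ ℝ r)) = cst r
  | 0, _ => rfl
  | n + 1, r => by
    rw [← cst_eq n r, ← logChain.of_succ n]
    exact congrArg (logChain.of (n + 1))
      ((rho_of 1 r).symm.trans (congrArg (expChain.of 1) (up_rho 0 r).symm))

/-- The series `exp (b x) * zz b` at depth `n`. -/
def yK (b : ℝ) (n : ℕ) : (stage (n + 1)).K := toLex (single (-bet b n) (upN n (zK b)))

theorem up_yK (b : ℝ) (n : ℕ) : (up (n + 1)).φ (yK b n) = yK b (n + 1) := by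
  have : hmap (up n).φ (up n).onA (onA_mono n) (single (-bet b n) (upN n (zK b))) =
      single (-bet b (n + 1)) (upN (n + 1) (zK b)) := by
    rw [hmap_single, map_neg]; rfl
  exact this

/-- The transseries `∫ exp (b x) / x`. -/
def yT (b : ℝ) : T := logChain.of 0 (expChain.of 1 (yK b 0))

theorem yT_eq (b : ℝ) : ∀ n : ℕ, logChain.of n (expChain.of (n + 1) (yK b n)) = yT b
  | 0 => rfl
  | n + 1 => by
    rw [← yT_eq b n, ← logChain.of_succ n, ← up_yK]
    rfl

theorem exists_aut {A : Set T} (hA : A.Finite) : ∃ b ∈ Set.Ioo (1 : ℝ) 2, ∃ σ : T →+* T,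
    Function.Surjective σ ∧ (∀ f, σ (der f) = der (σ f)) ∧ (∀ f, σ (exp f) = exp (σ f)) ∧
    (∀ r, σ (cst r) = cst r) ∧ (∀ a ∈ A, σ a = a) ∧ σ (yT b) = yT b + 1 := by
  obtain ⟨n₀, -, P₁, hP₁, hA₁⟩ := logChain.exists_finite hA 0
  obtain ⟨M, hM, P₂, hP₂, hA₂⟩ := expChain.exists_finite hP₁ (n₀ + 1)
  obtain ⟨P₃, hP₃, H₃⟩ := tw_fix hM hP₂.countable
  let Q : (stage n₀).K⟦(stage n₀).A⟧ → Set (stage n₀).K := fun f =>
    f.coeff '' f.support ∪ Subtype.val '' f.support
  obtain ⟨b, hb, d₀, hz, hZ⟩ := Dat.start n₀ (Z := ⋃ p ∈ P₃, Q p) (hP₃.biUnion fun p _ =>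
    ((countable_support n₀ p).image _).union ((countable_support n₀ p).image _))
  have hb0 : 0 < b := by linarith [hb.1]
  choose nx hnx using fun n (d : Dat b n) => d.step hb0
  let d : ∀ n, n₀ ≤ n → Dat b n := fun n h =>
    Nat.leRec (motive := fun n _ => Dat b n) d₀ (fun k _ d => nx k d) h
  have hd₀ : d n₀ le_rfl = d₀ := Nat.leRec_self _ _
  have hd : ∀ n h, Link (d n h) (d (n + 1) (Nat.le_succ_of_le h)) := fun n h => by
    have : d (n + 1) (Nat.le_succ_of_le h) = nx n (d n h) := Nat.leRec_succ _ _ h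
    rw [this]
    exact hnx n _
  obtain ⟨σ, hσ⟩ := logChain.exists_liftHom (N := n₀)
    (fun n h => (logChain.ofHom (n + 1)).comp (glue ((d n h).sp hb0))) fun n h (f : TE) => by
      have := glue_comp (a := upMor (n + 1)) (c' := upMor (n + 2)) (a' := (d n h).sp hb0)
        (c := (d (n + 1) (Nat.le_succ_of_le h)).sp hb0) (fun f => by
        rw [upMor_φ, upMor_φ]; exact Dat.sp_up (hd n h) hb0 f) f
      rw [glue_up, glue_up] at this
      exact (congrArg (logChain.of (n + 2)) this).trans (logChain.of_succ (n + 1) _)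
  replace hσ : ∀ n h (f : TE),
      σ (logChain.of n f) = logChain.of (n + 1) (glue ((d n h).sp hb0) f) := hσ
  have hinc : ∀ n h (a : (stage n).K), (d n h).δ a = 0 →
      glue ((d n h).sp hb0) (expChain.of n a) = upFun (expChain.of n a) := fun n h a ha => by
    rw [← expChain.of_succ n a, glue_self]
    exact congrArg (expChain.of (n + 2)) ((d n h).sp_inc hb0 ha)
  refine ⟨b, hb, σ, fun t => ?_, fun t => ?_, fun t => ?_, fun r => ?_, fun a ha => ?_, ?_⟩
  · obtain ⟨n, h, f, rfl⟩ := logChain.exists_ge₁ n₀ t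
    refine ⟨logChain.of (n + 1) (glue ((d n h).sm hb0) f), ?_⟩
    have := glue_comp (a' := upMor (n + 1)) (c' := upMor (n + 2)) (a := (d n h).sm hb0)
      (c := (d (n + 1) (Nat.le_succ_of_le h)).sp hb0) (fun f => by
      rw [upMor_φ, upMor_φ]; exact Dat.sp_sm (hd n h) hb0 f) f
    rw [glue_up, glue_up] at this
    rw [hσ _ (Nat.le_succ_of_le h), this]
    exact (logChain.of_succ (n + 1) _).trans (logChain.of_succ n _)
  · obtain ⟨n, h, f, rfl⟩ := logChain.exists_ge₁ n₀ t
    have e : ∀ n (f : TE), der (logChain.of n f) = logChain.of n (thetaE f / mu n : TE) :=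
      fun _ _ => rfl
    have e' : mu (n + 1) = xE * upFun (mu n) := rfl
    have hmu : glue ((d n h).sp hb0) (mu n) = upFun (mu n) := by
      rw [mu_eq]
      exact hinc n h _ ((d n h).δ_mu hb0)
    rw [e, hσ n h, hσ n h, e, theta_glue rfl, map_div₀, hmu, e', mul_div_mul_left _ _ xE_ne_zero]
  · obtain ⟨n, h, f, rfl⟩ := logChain.exists_ge₁ n₀ t
    have e : ∀ n (f : TE), exp (logChain.of n f) = logChain.of n (expE f) := fun _ _ => rfl
    rw [e, hσ n h, hσ n h, e, exp_glue]
  · rw [← cst_eq n₀, ← rho_of n₀, hσ n₀ le_rfl, hinc _ _ _ ((d n₀ le_rfl).δ_rho hb0 r)]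
    exact logChain.of_succ n₀ (expChain.of n₀ (rho n₀ r))
  · obtain ⟨p₁, hp₁, rfl⟩ := hA₁ ha
    obtain ⟨p₂, hp₂, rfl⟩ := hA₂ hp₁
    rw [hσ n₀ le_rfl, glue_of _ hM, H₃ _ _ p₂ hp₂]
    · exact logChain.of_succ n₀ (expChain.of M p₂)
    · intro p hp
      rw [hd₀]
      exact d₀.sp_fix hb0 p fun a ha =>
        ⟨hZ _ (Set.mem_iUnion₂.2 ⟨p, hp, Or.inl ⟨a, ha, rfl⟩⟩),
          hZ _ (Set.mem_iUnion₂.2 ⟨p, hp, Or.inr ⟨a, ha, rfl⟩⟩)⟩
  · rw [← yT_eq b n₀, hσ n₀ le_rfl, glue_self, hd₀, ← logChain.of_succ n₀]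
    let F : (stage (n₀ + 2)).K →+* T := (logChain.ofHom (n₀ + 1)).comp (expChain.ofHom (n₀ + 2))
    exact (congrArg F (d₀.sp_move hb0 hz)).trans ((map_add F _ _).trans (congrArg _ (map_one F)))

end Pool.Agent.MP_97be6c_lc

end
end

-- part MP_97be6c_lc.Main
section

set_option autoImplicit false
set_option linter.unusedSectionVars false

open HahnSeries FirstOrder

noncomputable section

namespace Pool.Agent.MP_97be6c_lc

namespace Chain

theorem ordered (c : Chain) [∀ n, IsStrictOrderedRing (c.X n)] : IsStrictOrderedRing c.Lim := by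
  have hm : ∀ n, StrictMono (c.ofHom n) := fun n _ _ h => c.lt_of.2 h
  have : IsOrderedAddMonoid c.Lim :=
    { add_le_add_left := fun a b h d => by
        obtain ⟨n, x, y, z, rfl, rfl, rfl⟩ := c.exists_of₃ a b d
        change c.ofHom n x + c.ofHom n z ≤ c.ofHom n y + c.ofHom n z
        rw [← map_add, ← map_add, (hm n).le_iff_le]
        exact add_le_add_left ((hm n).le_iff_le.1 h) z }
  have : ZeroLEOneClass c.Lim := ⟨by
    rw [← map_zero (c.ofHom 0), ← map_one (c.ofHom 0), (hm 0).le_iff_le]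
    exact zero_le_one⟩
  refine IsStrictOrderedRing.of_mul_pos fun a b ha hb => ?_
  obtain ⟨n, x, y, rfl, rfl⟩ := c.exists_of₂ a b
  change 0 < c.ofHom n x * c.ofHom n y
  change 0 < c.ofHom n x at ha
  change 0 < c.ofHom n y at hb
  rw [← map_zero (c.ofHom n), (hm n).lt_iff_lt] at ha hb
  rw [← map_mul, ← map_zero (c.ofHom n), (hm n).lt_iff_lt]
  exact mul_pos ha hb

end Chain

instance (m : ℕ) : IsStrictOrderedRing (expChain.X m) := (stage m).ordered

instance : IsStrictOrderedRing TE := expChain.ordered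

instance (n : ℕ) : IsStrictOrderedRing (logChain.X n) := (inferInstance : IsStrictOrderedRing TE)

instance : IsStrictOrderedRing T := logChain.ordered

instance : OrderTopology T := ⟨rfl⟩

theorem thetaE_add (a b : TE) : thetaE (a + b) = thetaE a + thetaE b := by
  obtain ⟨m, f, g, rfl, rfl⟩ := expChain.exists_of₂ a b
  exact (congrArg thetaE (map_add (expChain.ofHom m) f g).symm).trans
    (map_add ((expChain.ofHom m).toAddMonoidHom.comp (stage m).θ) f g)

theorem thetaE_mul (a b : TE) : thetaE (a * b) = a * thetaE b + thetaE a * b := by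
  obtain ⟨m, f, g, rfl, rfl⟩ := expChain.exists_of₂ a b
  let F : (stage m).K →+* TE := expChain.ofHom m
  refine (congrArg thetaE (map_mul F f g).symm).trans
    ((congrArg F ((good m).der f g)).trans ?_)
  exact (map_add F _ _).trans (congrArg₂ (· + ·) (map_mul F _ _) (map_mul F _ _))

theorem der_of (n : ℕ) (f : TE) :
    der (logChain.ofHom n f) = logChain.ofHom n (thetaE f / mu n : TE) := rfl

/-- The derivation of `T` as an additive map. -/
def derHom : T →+ T := AddMonoidHom.mk' der fun a b => by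
  obtain ⟨n, f, g, rfl, rfl⟩ := logChain.exists_of₂ a b
  let F : TE →+* T := logChain.ofHom n
  have hF : ∀ f, der (F f) = F (thetaE f / mu n) := der_of n
  change der (F f + F g) = der (F f) + der (F g)
  rw [← map_add, hF, hF, hF, thetaE_add, add_div, map_add]

theorem isDer_der : IsDer derHom := fun a b => by
  obtain ⟨n, f, g, rfl, rfl⟩ := logChain.exists_of₂ a b
  let F : TE →+* T := logChain.ofHom n
  have hF : ∀ f, der (F f) = F (thetaE f / mu n) := der_of n
  change der (F f * F g) = F f * der (F g) + der (F f) * F g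
  rw [← map_mul, hF, hF, hF, thetaE_mul, ← map_mul, ← map_mul, ← map_add]
  congr 1
  ring

/-- The transseries `x`. -/
def xT : T := logChain.of 0 xE

theorem x_mul_der (f : TE) : xT * der (logChain.of 0 f) = logChain.of 0 (thetaE f) := by
  let F : TE →+* T := logChain.ofHom 0
  change F xE * F (thetaE f / xE) = F (thetaE f)
  rw [← map_mul, mul_div_cancel₀ _ xE_ne_zero]

theorem xT_ne_zero : xT ≠ 0 := (map_ne_zero (logChain.ofHom 0)).2 xE_ne_zero

theorem der_xT : der xT = 1 := by
  refine mul_left_cancel₀ xT_ne_zero ?_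
  rw [mul_one]
  exact (x_mul_der xE).trans (congrArg (fun f => logChain.of 0 (expChain.of 0 f)) (θ_xs 0))

theorem der_cst (r : ℝ) : der (cst r) = 0 := by
  refine mul_left_cancel₀ xT_ne_zero ?_
  rw [mul_zero]
  exact (x_mul_der _).trans ((congrArg (fun f => logChain.of 0 (expChain.of 0 f))
    ((good 0).θρ r)).trans (map_zero ((logChain.ofHom 0).comp (expChain.ofHom 0))))

theorem cst_injective : Function.Injective cst :=
  ((logChain.ofHom 0).comp ((expChain.ofHom 0).comp (rho 0))).injective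

theorem quad_empty {F : Type} [Field F] [LinearOrder F] [IsStrictOrderedRing F] {d : F →+ F}
    (hd : IsDer d) {x : F} (hx : d x = 1) {l u y : F} (hy : y ∈ Set.Ioo l u)
    (h : ∀ t ∈ Set.Ioo l u, x * d t * d (d (x * d t)) = d (x * d t) * d (x * d t)) : False := by
  obtain ⟨η, hη, h1, h2⟩ : ∃ η, 0 < η ∧ η ≤ y - l ∧ η ≤ u - y :=
    ⟨min (y - l) (u - y), lt_min (sub_pos.2 hy.1) (sub_pos.2 hy.2), min_le_left _ _,
      min_le_right _ _⟩
  have hQ : ∀ e, |e| < η → x * d e * d (d (x * d e)) = d (x * d e) * d (x * d e) := by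
    intro e he
    rw [abs_lt] at he
    have h3 := h (y + e) ⟨by linarith, by linarith⟩
    have h4 := h (y - e) ⟨by linarith, by linarith⟩
    have h5 := h y hy
    simp only [map_add, map_sub, mul_add, mul_sub] at h3 h4
    linear_combination (h3 + h4 - 2 * h5) / 2
  have hx0 : x ≠ 0 := fun h0 => by simp [h0] at hx
  have hc : ∀ e, |e| < η / 2 → |e| < 1 → d e = 0 := by
    intro e he he1
    have hee : |e * e| ≤ |e| := by
      rw [abs_mul]; exact mul_le_of_le_one_right (abs_nonneg e) he1.le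
    have q1 := hQ e (by linarith)
    have q2 := hQ (e * e) (by linarith)
    have q3 := hQ (e + e * e) ((abs_add_le _ _).trans_lt (by linarith))
    have e1 : x * d (e * e) = e * (x * d e) + e * (x * d e) := by rw [hd]; ring
    have e2 : x * d (e + e * e) = x * d e + (e * (x * d e) + e * (x * d e)) := by
      rw [map_add, mul_add, e1]
    rw [e1] at q2
    rw [e2] at q3
    by_contra hne
    have hw : x * d e ≠ 0 := mul_ne_zero hx0 hne
    generalize x * d e = w at q1 q2 q3 hw
    simp only [map_add, hd _ _] at q2 q3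
    have r2 : e * d (d e) = d e * d e := by
      refine mul_left_cancel₀ (mul_ne_zero hw hw) ?_
      linear_combination q2 / 4 - e * e * q1
    have r3 : (1 + 2 * e) * d (d e) = 2 * (d e * d e) := by
      refine mul_left_cancel₀ (mul_ne_zero hw hw) ?_
      linear_combination q3 / 2 - (1 + 2 * e) ^ 2 * q1 / 2
    have r4 : d (d e) = 0 := by linear_combination r3 - 2 * r2
    rw [r4, mul_zero] at r2
    exact hne (mul_self_eq_zero.1 r2.symm)
  obtain ⟨κ, hκ, k1, k2⟩ : ∃ κ, 0 < κ ∧ κ ≤ η / 2 ∧ κ ≤ 1 :=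
    ⟨min (η / 2) 1, lt_min (by linarith) one_pos, min_le_left _ _, min_le_right _ _⟩
  have ha := abs_nonneg x
  obtain ⟨ε, hε, hε'⟩ : ∃ ε, 0 < ε ∧ (1 + |x|) * ε < κ :=
    ⟨κ / (2 * (1 + |x|)), by positivity, by
      rw [← mul_div_assoc, div_lt_iff₀ (by positivity)]; nlinarith⟩
  have b1 : |ε| < κ := by rw [abs_of_pos hε]; nlinarith
  have b2 : |x * ε| < κ := by rw [abs_mul, abs_of_pos hε]; nlinarith
  have := hc _ (b2.trans_le k1) (b2.trans_le k2)
  rw [hd, hc _ (b1.trans_le k1) (b1.trans_le k2), hx] at this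
  exact hε.ne' (by simpa using this)

/-- The solutions of `w w'' = (w')^2`, `w = x y'`. -/
def SS : Set (Fin 1 → T) :=
  {v | xT * der (v 0) * der (der (xT * der (v 0))) = der (xT * der (v 0)) * der (xT * der (v 0))}

theorem SS_definable : (Set.univ : Set T).Definable (lang false) SS := by
  let mul : (lang false).Term (↥(Set.univ : Set T) ⊕ Fin 1) →
      (lang false).Term (↥(Set.univ : Set T) ⊕ Fin 1) →
      (lang false).Term (↥(Set.univ : Set T) ⊕ Fin 1) := fun s t => .func Sym.mul ![s, t]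
  let dr : (lang false).Term (↥(Set.univ : Set T) ⊕ Fin 1) →
      (lang false).Term (↥(Set.univ : Set T) ⊕ Fin 1) := fun s => .func Sym.der ![s]
  let w := mul (.var (.inl ⟨xT, trivial⟩)) (dr (.var (.inr 0)))
  refine Set.definable_iff_exists_formula_sum.2
    ⟨(mul w (dr (dr w))).equal (mul (dr w) (dr w)), ?_⟩
  ext v
  exact Iff.symm Language.Formula.realize_equal

theorem SS_interior (j : Fin 1) : interior ((fun v => v j) '' SS) = ∅ := by
  rw [Set.eq_empty_iff_forall_notMem]
  intro y hy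
  obtain ⟨l, u, h1, h2⟩ := mem_nhds_iff_exists_Ioo_subset.1 (mem_interior_iff_mem_nhds.1 hy)
  refine quad_empty isDer_der (x := xT) der_xT h1 fun t ht => ?_
  obtain ⟨v, hv, rfl⟩ := h2 ht
  rw [Subsingleton.elim j 0]
  exact hv

theorem yT_mem {b : ℝ} (hb : b ≠ 0) : (fun _ => yT b) ∈ SS := by
  let w : (stage 1).K := toLex (single (-bet b 0) (1 : (stage 0).K))
  have h1 : (stage 1).θ (yK b 0) = w := by
    have : hder (stage 0).θ (lamK 0) (single (-bet b 0) (upN 0 (zK b))) =
        single (-bet b 0) (1 : (stage 0).K) := by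
      rw [hder_single, θ_zK hb, map_neg]
      congr 1
      simp [nuK]
    exact this
  have h2 : (stage 1).θ w = rho 1 b * xs 1 * w := by
    have : hder (stage 0).θ (lamK 0) (single (-bet b 0) (1 : (stage 0).K)) =
        C (rho 0 b) * C (xs 0) * single (-bet b 0) 1 := by
      rw [hder_single, (good 0).der.one, map_neg, ← map_mul, C_apply, single_mul_single, zero_add]
      congr 1
      have := θ_bet b 0
      simp only [nuK, upN, one_mul, RingHom.id_apply] at this
      simp [this]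
    exact this
  let F : (stage 1).K →+* T := (logChain.ofHom 0).comp (expChain.ofHom 1)
  have h3 : xT * der (yT b) = F w := (x_mul_der _).trans (congrArg F h1)
  have h4 : der (F w) = cst b * F w := by
    refine mul_left_cancel₀ xT_ne_zero (((x_mul_der (expChain.of 1 w)).trans (congrArg F h2)).trans ?_)
    have e1 : F (rho 1 b) = cst b := congrArg (logChain.of 0) (rho_of 1 b)
    have e2 : F (xs 1) = xT := congrArg (logChain.of 0) (xE_eq 1)
    rw [map_mul, map_mul, e1, e2]
    ring
  have h5 : der (cst b * F w) = cst b * der (F w) := isDer_der.const_mul (c := cst b) (der_cst b) (F w)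
  change xT * der (yT b) * der (der (xT * der (yT b))) =
    der (xT * der (yT b)) * der (xT * der (yT b))
  rw [h3, h4, h5, h4]
  ring

theorem invariant {ι : Type} {G : Set (ι → T)} (hG : (Set.univ : Set T).Definable (lang true) G) :
    ∃ b ∈ Set.Ioo (1 : ℝ) 2, ∃ σ : T → T, (∀ r, σ (cst r) = cst r) ∧ σ (yT b) = yT b + 1 ∧
      ∀ v ∈ G, σ ∘ v ∈ G := by
  obtain ⟨A, -, hA⟩ := Set.definable_iff_finitely_definable.1 hG
  obtain ⟨φ, rfl⟩ := Set.definable_iff_exists_formula_sum.1 hA
  obtain ⟨b, hb, σ, h1, h2, h3, h4, h5, h6⟩ := exists_aut A.finite_toSet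
  let g : (lang true).Equiv T T :=
    { Equiv.ofBijective σ ⟨σ.injective, h1⟩ with
      map_fun' := fun {n} f v => by
        cases f with
        | zero => exact map_zero σ
        | one => exact map_one σ
        | add => exact map_add σ _ _
        | mul => exact map_mul σ _ _
        | der => exact h2 _
        | exp => exact h3 _
      map_rel' := fun r => r.elim }
  refine ⟨b, hb, σ, h4, h6, fun v hv => ?_⟩
  have := (Language.StrongHomClass.realize_formula g φ).2 hv
  have e : g ∘ Sum.elim (Subtype.val : ↥(A : Set T) → T) v =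
      Sum.elim (Subtype.val : ↥(A : Set T) → T) (σ ∘ v) := by
    funext i
    rcases i with a | i
    · exact h5 a.1 a.2
    · rfl
  rwa [e] at this

theorem main (m : ℕ) (f : (Fin m → ℝ) → Fin 1 → T)
    (hf : (Set.univ : Set T).Definable (lang true)
      {v : Fin m ⊕ Fin 1 → T | ∃ r, (∀ i, v (Sum.inl i) = cst (r i)) ∧
        ∀ j, v (Sum.inr j) = f r j}) : ¬SS ⊆ Set.range f := by
  intro hS
  obtain ⟨b, hb, σ, h1, h2, h3⟩ := invariant hf
  obtain ⟨r, hr⟩ := hS (yT_mem (b := b) (by linarith [hb.1]))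
  obtain ⟨r', h4, h5⟩ := h3 (Sum.elim (fun i => cst (r i)) (f r)) ⟨r, fun _ => rfl, fun _ => rfl⟩
  have : r = r' := funext fun i => cst_injective ((h1 _).symm.trans (h4 i))
  subst this
  have := h5 0
  simp only [Function.comp_apply, Sum.elim_inr, hr, h2] at this
  exact one_ne_zero (add_eq_left.1 this)

end Pool.Agent.MP_97be6c_lc

end
end
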